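import Pool.Agent.H1.NA.Df
import Pool.Agent.H31.NA.GQ

set_option autoImplicit false

/-!
# Row Fa (MP_b319aa_NA, block B): the norm afm E q c (x -> min over the non zero components of q(x_b) + c_b)

Facts on components: H31NA.cpt_sum, cpt_mem, cpt_of_mem, cpt_of_ne, cpt_add, cpt_smul, cpt_ex (Pool/Agent/H31/NA/GM.lean); on SpD: GN, GO (coll_spl, spd_of_bas), GP (ds_spd, rd_spd), GC (sn_of).
PROOFS.
* afm_min: x ≠ 0: the set {b | cpt E b x ≠ 0} is finite and non empty (cpt_ex): the infimum is attained and is a lower bound (csInf_mem of a finite non empty set, csInf_le).  [like H31NA.osm_min]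
* afm_mem: x ∈ E b, x ≠ 0: cpt E b x = x, cpt E b' x = 0 for b' ≠ b: afm_min.
* afm_spd: SpD: afm_min and afm_mem (cpt E b x ∈ E b).  rs: funext; x = 0: both sides 0 (trl at 0 is 0); x ≠ 0: afm_mem.
* afm_sn: for each b the norm rs (E b) q is splittable (H31NA.rs_sn) with basis e b; trl (rs (E b) q) (c b) is split by e b (H31NA.trl_spl); H31NA.coll_spl with SpD and rs (E b) (afm ..) = trl ..;
  H31NA.sn_of (finite index type), afm at 0 is 0 (unfold, if_pos).
* afm_zero: funext; x = 0: q 0 = 0.  x ≠ 0: afm_min with c = 0 and SpD: two inequalities.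
* ds_afm: H31NA.ds_spd (GP) for afm c, afm c': sum over b of ds (rs afm c) (rs afm c') ^ 2 = sum of ds (trl (rs q) (c b)) (trl (rs q) (c' b)) ^ 2; H31NA.ds_trl (GL) with ds (rs q) (rs q) = 0 and
  rd (rs q) (rs q) = 0 (H31NA.ds_gen, rd_gen with the same norm): = finrank * (c' b - c b) ^ 2; nn E b is this dimension (unfold nn).
* rd_afm: H31NA.rd_trl, same.
-/

namespace H1NA

open H50NA MeasureTheory Set Filter Topology Metric

noncomputable section

variable {K : Type} [Field K] (F : VF K) {V : Type} [AddCommGroup V] [Module K V]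
variable {N : ℕ} {E : Fin N → Submodule K V}

theorem afm_min (hE : DirectSum.IsInternal E) (q : V → ℝ) (c : Fin N → ℝ) {x : V} (hx : x ≠ 0) :
    (∀ b, cpt E b x ≠ 0 → afm E q c x ≤ q (cpt E b x) + c b) ∧
      ∃ b, cpt E b x ≠ 0 ∧ afm E q c x = q (cpt E b x) + c b := by
  have hfin : {b | cpt E b x ≠ 0}.Finite := Set.toFinite _
  have hne : {b | cpt E b x ≠ 0}.Nonempty := H31NA.cpt_ex hE hx
  have e : afm E q c x = sInf ((fun b => q (cpt E b x) + c b) '' {b | cpt E b x ≠ 0}) := by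
    unfold afm
    rw [if_neg hx]
  rw [e]
  refine ⟨fun b hb => csInf_le (hfin.image _).bddBelow ⟨b, hb, rfl⟩, ?_⟩
  obtain ⟨b, hb, h2⟩ := (hne.image (fun b => q (cpt E b x) + c b)).csInf_mem (hfin.image _)
  exact ⟨b, hb, h2.symm⟩

theorem afm_mem (hE : DirectSum.IsInternal E) (q : V → ℝ) (c : Fin N → ℝ) {x : V} (hx : x ≠ 0) {b : Fin N}
    (hb : x ∈ E b) : afm E q c x = q x + c b := by
  obtain ⟨_, b', hb', h2⟩ := afm_min hE q c hx
  by_cases hbb : b' = b
  · rw [hbb, H31NA.cpt_of_mem hE hb] at h2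
    exact h2
  · exact absurd (H31NA.cpt_of_ne hE hbb hb) hb'

theorem Fa_zero (E : Fin N → Submodule K V) (q : V → ℝ) (c : Fin N → ℝ) : afm E q c 0 = 0 := by
  unfold afm
  rw [if_pos rfl]

theorem Fa_spd (hE : DirectSum.IsInternal E) (q : V → ℝ) (c : Fin N → ℝ) :
    SpD E (afm E q c) := by
  intro x hx
  obtain ⟨h1, b, hb, h2⟩ := afm_min hE q c hx
  have key : ∀ b, cpt E b x ≠ 0 → afm E q c (cpt E b x) = q (cpt E b x) + c b := fun b hb =>
    afm_mem hE q c hb (H31NA.cpt_mem E b x)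
  refine ⟨fun b hb => ?_, b, hb, ?_⟩
  · rw [key b hb]
    exact h1 b hb
  · rw [key b hb]
    exact h2

theorem Fa_rs (hE : DirectSum.IsInternal E) (q : V → ℝ) (c : Fin N → ℝ) (b : Fin N) :
    rs (E b) (afm E q c) = trl (rs (E b) q) (c b) := by
  funext x
  by_cases hx : x = 0
  · subst hx
    rw [H31NA.trl_zero]
    exact Fa_zero E q c
  · rw [H31NA.trl_apply _ _ hx]
    have hx' : (x : V) ≠ 0 := fun h => hx (Subtype.ext h)
    exact afm_mem hE q c hx' x.2

variable [Module.Finite K V]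

theorem afm_sn (hE : DirectSum.IsInternal E) {q : V → ℝ} (hq : SN F q) (c : Fin N → ℝ) :
    SN F (afm E q c) := by
  obtain ⟨e, he⟩ := H31NA.GP_common F (E := E) hq hq
  refine H31NA.sn_of F (hE.collectedBasis e)
    (H31NA.coll_spl F hE e (Fa_spd hE q c) fun b => ?_) (Fa_zero E q c)
  rw [Fa_rs hE q c b]
  exact H31NA.trl_spl F (he b).1 (c b)

include F in
theorem afm_spd (hE : DirectSum.IsInternal E) {q : V → ℝ} (hq : SN F q) (c : Fin N → ℝ) :
    SpD E (afm E q c) ∧ ∀ b, rs (E b) (afm E q c) = trl (rs (E b) q) (c b) := by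
  exact ⟨Fa_spd hE q c, Fa_rs hE q c⟩

include F in
theorem afm_zero (hE : DirectSum.IsInternal E) {q : V → ℝ} (hq : SN F q) (h : SpD E q) :
    afm E q (fun _ => 0) = q := by
  funext x
  by_cases hx : x = 0
  · subst hx
    rw [Fa_zero, hq.1]
  · obtain ⟨h1, b, hb, h2⟩ := afm_min hE q (fun _ => 0) hx
    obtain ⟨h3, b', hb', h4⟩ := h x hx
    have h5 := h1 b' hb'
    have h6 := h3 b hb
    simp only [add_zero] at h2 h5
    apply le_antisymm
    · rw [h4]
      exact h5
    · rw [h2]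
      exact h6

theorem ds_afm (hE : DirectSum.IsInternal E) {q : V → ℝ} (hq : SN F q) (c c' : Fin N → ℝ) :
    ds F (afm E q c) (afm E q c') ^ 2 = ∑ b, nn E b * (c' b - c b) ^ 2 := by
  rw [H31NA.ds_spd F hE (afm_sn F hE hq c) (afm_sn F hE hq c') (Fa_spd hE q c) (Fa_spd hE q c')]
  refine Finset.sum_congr rfl fun b _ => ?_
  have hs := H31NA.rs_sn F (E b) hq
  obtain ⟨_, e, he⟩ := id hs
  rw [Fa_rs hE, Fa_rs hE, H31NA.ds_trl F hs hs, H31NA.ds_gen F he he, H31NA.rd_gen F he he]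
  simp [nn]

theorem rd_afm (hE : DirectSum.IsInternal E) {q : V → ℝ} (hq : SN F q) (c c' : Fin N → ℝ) (b : Fin N) :
    rd F (rs (E b) (afm E q c)) (rs (E b) (afm E q c')) = nn E b * (c' b - c b) := by
  have hs := H31NA.rs_sn F (E b) hq
  obtain ⟨_, e, he⟩ := id hs
  rw [Fa_rs hE, Fa_rs hE, H31NA.rd_trl F hs hs, H31NA.rd_gen F he he]
  simp [nn]

end

end H1NA
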