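import Pool.Agent.H1.NA.Lf
import Pool.Agent.H46.NB.Nz

set_option autoImplicit false

/-!
# MP_b319aa_NA, block B: interface of sections B1-B7

afm_sn, afm_spd, afm_zero, ds_afm, rd_afm: Fa.lean.  blow_ex, afm_tan: Lf.lean.  B6, B7 (dens, lip_bd, den_le): helper46, Pool/Agent/H46/NB.
-/

namespace H1NA

open H50NA MeasureTheory Set Filter Topology Metric

noncomputable section

variable {K : Type} [Field K] (F : VF K) {V : Type} [AddCommGroup V] [Module K V] [Module.Finite K V]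
variable {N : ℕ} {E : Fin N → Submodule K V}

theorem dens {u : ℂ → Nm F V} {O : Set ℂ} (h : LM u O) {x0 : ℂ} (hx : x0 ∈ O) {a : Fin N → ℂ}
    (hB : Blow F u x0 N E a) (t : ℂ) :
    Tendsto (fun r : ℝ => ⨍ y in ball x0 r, sp u t y ^ 2) (𝓝[>] 0)
      (𝓝 (∑ b, nn E b * ((a b).re * t.re + (a b).im * t.im) ^ 2)) :=
  H46NB.dens F h hx hB t

theorem lip_bd {u : ℂ → Nm F V} {O : Set ℂ} (h : LM u O) {x0 : ℂ} (hx : x0 ∈ O) {a : Fin N → ℂ}
    (hB : Blow F u x0 N E a) {del : ℝ} (hd : 0 < del) : ∃ r : ℝ, 0 < r ∧ ball x0 r ⊆ O ∧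
      ∀ y ∈ ball x0 r, ∀ y' ∈ ball x0 r, dist (u y) (u y') ^ 2 ≤
        ∑ b, nn E b * ((a b).re * (y' - y).re + (a b).im * (y' - y).im) ^ 2 + del ^ 2 * dist y y' ^ 2 :=
  H46NB.lip_bd F h hx hB hd

/-- the quadratic form of the blow-up data is upper semicontinuous -/
theorem den_le {u : ℂ → Nm F V} {O : Set ℂ} (h : LM u O) {x0 : ℂ} (hx : x0 ∈ O) {a : Fin N → ℂ}
    (hB : Blow F u x0 N E a) {del : ℝ} (hd : 0 < del) : ∃ r : ℝ, 0 < r ∧ ball x0 r ⊆ O ∧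
      ∀ y ∈ ball x0 r, ∀ (N' : ℕ) (E' : Fin N' → Submodule K V) (a' : Fin N' → ℂ),
        Blow F u y N' E' a' → ∀ t : ℂ, ∑ b, nn E' b * ((a' b).re * t.re + (a' b).im * t.im) ^ 2 ≤
          ∑ b, nn E b * ((a b).re * t.re + (a b).im * t.im) ^ 2 + del ^ 2 * ‖t‖ ^ 2 :=
  H46NB.den_le F h hx hB hd

end

end H1NA
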