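import Pool.Agent.H50.NA.Inst
import Pool.Agent.H50.NA.XI

set_option autoImplicit false

/-!
# MP_b319aa_NA, block B: common definitions of sections B1-B7, B9 (no row)

Conventions. q is a splittable norm (usually q = (u x0).1).  For x <> 0 and a basis b splitting q let
M_b(x) = {i : x_i <> 0, v(x_i) + q(b_i) = q(x)}  (the leading indices of x).
A tangent vector at q is a function h on V with h(x) = min over M_b(x) of h(b_i) for some basis b splitting q.
-/

namespace H1NA

open H50NA MeasureTheory Set Filter Topology Metric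

noncomputable section

variable {K : Type} [Field K] (F : VF K) {V : Type} [AddCommGroup V] [Module K V]

/-- leading index: i in M_b(x) -/
def Ldi (q : V → ℝ) (b : Bs K V) (x : V) (i : Fin (Module.finrank K V)) : Prop :=
  b.repr x i ≠ 0 ∧ F.v (b.repr x i) + q (b i) = q x

/-- the basis b splits q and the tangent vector h -/
structure Lsp (q : V → ℝ) (b : Bs K V) (h : V → ℝ) : Prop where
  zero : h 0 = 0
  spl : Spl F b q
  le : ∀ x : V, x ≠ 0 → ∀ i, Ldi F q b x i → h x ≤ h (b i)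
  ex : ∀ x : V, x ≠ 0 → ∃ i, Ldi F q b x i ∧ h x = h (b i)

/-- tangent vectors at q -/
def TQ (q h : V → ℝ) : Prop := ∃ b : Bs K V, Lsp F q b h

open Classical in
/-- the distance of tangent vectors -/
def dT (q h k : V → ℝ) : ℝ :=
  if hh : ∃ b : Bs K V, Lsp F q b h ∧ Lsp F q b k then
    Real.sqrt (∑ i, (k (hh.choose i) - h (hh.choose i)) ^ 2) else 0

/-- the direct sum of the translates of the restrictions: x -> min_b (q(x_b) + c_b) -/
def afm {N : ℕ} (E : Fin N → Submodule K V) (q : V → ℝ) (c : Fin N → ℝ) : V → ℝ := fun x =>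
  open Classical in
  if x = 0 then 0 else sInf ((fun b => q (cpt E b x) + c b) '' {b | cpt E b x ≠ 0})

/-- blow-up data of u at x0 -/
structure Blow (u : ℂ → Nm F V) (x0 : ℂ) (N : ℕ) (E : Fin N → Submodule K V) (a : Fin N → ℂ) : Prop where
  int : DirectSum.IsInternal E
  nz : ∀ b, E b ≠ ⊥
  inj : Function.Injective a
  spl : SpD E (u x0).1
  app : ∀ ep : ℝ, 0 < ep → ∀ rho : ℝ, 0 < rho → ∃ l : ℝ, 0 < l ∧ l < rho ∧
    ∀ y : ℂ, dist y x0 ≤ l → ∀ x : V, x ≠ 0 → |(u y).1 x -
      afm E (u x0).1 (fun b => (a b).re * (y - x0).re + (a b).im * (y - x0).im) x| ≤ ep * l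

/-- difference quotient of u at x0, scale l -/
def dq (u : ℂ → Nm F V) (x0 : ℂ) (l : ℝ) (z : ℂ) : V → ℝ := fun x =>
  ((u (x0 + (l : ℂ) * z)).1 x - (u x0).1 x) / l

/-- blow-up of u at x0: tangent vectors v z approximating u along a sequence of scales -/
structure Vdat (u : ℂ → Nm F V) (x0 : ℂ) (L : ℝ) (v : ℂ → V → ℝ) (Nf : ℂ → ℝ) : Prop where
  tq : ∀ z, TQ F (u x0).1 (v z)
  zero : v 0 = fun _ => 0
  dn : ∀ z a, dT F (u x0).1 (v z) (v (z + a)) = Nf a
  nl : ∀ a, Nf a ≤ L * ‖a‖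
  app : ∀ (S : Finset ℂ) (ep : ℝ), 0 < ep → ∀ rho : ℝ, 0 < rho → ∃ l : ℝ, 0 < l ∧ l < rho ∧
    ∀ z ∈ S, ∀ x : V, |(u (x0 + (l : ℂ) * z)).1 x - ((u x0).1 x + l * v z x)| ≤ ep * l

/-- homogeneous map into the tangent vectors at q -/
structure Hom (q : V → ℝ) (w : ℂ → V → ℝ) (Nh : ℂ → ℝ) : Prop where
  tq : ∀ z, TQ F q (w z)
  zero : w 0 = fun _ => 0
  dn : ∀ z a, dT F q (w z) (w (z + a)) = Nh a
  hom : ∀ (c : ℝ) (a : ℂ), Nh ((c : ℂ) * a) = |c| * Nh a

section lab

open Classical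

/-- the part of x with label a -/
def prt {A : Type} (e : Bs K V) (lam : Fin (Module.finrank K V) → A) (a : A) (x : V) : V :=
  ∑ j ∈ Finset.univ.filter (fun j => lam j = a), e.repr x j • e j

/-- the tangent vector h at q is split along the labels of the basis e -/
def Tsl {A : Type} (q : V → ℝ) (e : Bs K V) (lam : Fin (Module.finrank K V) → A) (h : V → ℝ) : Prop :=
  ∀ x : V, x ≠ 0 → (∀ a, prt e lam a x ≠ 0 → q (prt e lam a x) = q x → h x ≤ h (prt e lam a x)) ∧
    ∃ a, prt e lam a x ≠ 0 ∧ q (prt e lam a x) = q x ∧ h x = h (prt e lam a x)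

/-- the subspaces spanned by the classes of a labelling; s : Fin N -> A enumerates the labels -/
def Ecl {A : Type} {N : ℕ} (e : Bs K V) (lam : Fin (Module.finrank K V) → A) (s : Fin N → A) (b : Fin N) :
    Submodule K V := Submodule.span K (e '' {j | lam j = s b})

end lab

end

end H1NA
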