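import Pool.Agent.H1.NA.Tc

set_option autoImplicit false

/-!
# Row La (MP_b319aa_NA, block B): homogeneous maps into the tangent vectors along lines

PROOFS.
* hom_dist: H.dn z (z' - z).   hom_nn: Tb.dT_nn.   hom_abs: Tb.abs_le_dT and H.dn.
* hom_line: h = w (z + s1 a), k = w (z + s2 a), g = w (z + ((1-t) s1 + t s2) a).  By hom_dist and H.hom: dT h k = |s2 - s1| Nh a, dT h g = |t (s2 - s1)| Nh a = t dT h k, dT g k = (1-t) dT h k.
  Tc.dT_geo_ge.
* hom_ray: 0 ≤ t ≤ 1: h = w 0 = 0, k = w z, g = w (t z): dT h g = Nh (t z) = t Nh z, dT g k = Nh (z - t z) = (1 - t) Nh z, dT h k = Nh z.  b := common basis of h and k (Tb.tq_common); Tc.dT_geo: Lsp b g and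
  g (b i) = (1 - t) 0 + t w z (b i); Ta.lsp_ext with Ta.lsp_scale: g = t w z.  t > 1: z = (1/t) (t z), so w z = (1/t) w (t z).
* hom_shift: w (t a) x = t c for all real t: t ≥ 0: hom_ray; t < 0: t a = |t| (-a), hom_ray, h2.  g t := w (z + t a) x - t c.  |g t| = |w (t a + z) x - w (t a) x| ≤ Nh z =: B (hom_abs).
  g is concave along the line (hom_line).  For t > 0 and T > t, with s = t/T in [0,1]: g t ≥ (1 - s) g 0 + s g T ≥ (1-s) g 0 - s B; T → ∞: g t ≥ g 0.  With s = t/(t+T): 0 = (1-s) t + s (-T), so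
  g 0 ≥ (1-s) g t + s g (-T) ≥ (1-s) g t - s B; T → ∞: g 0 ≥ g t.  So g t = g 0 for t > 0.  t < 0: apply the case t > 0 to -a (h2 and h1 exchanged, c replaced by -c, -(-a) = a).
* hom_opp: A i := w a (b i), B i := w (-a) (b i).  Tb.dT_eq with the basis b and Ta.lsp_zero: sum A^2 = dT (w 0) (w a)^2 = (Nh a)^2; sum B^2 = (Nh (-a))^2 = (Nh a)^2 (H.hom with c = -1);
  sum (A - B)^2 = dT (w (-a)) (w a)^2 = (Nh (2 a))^2 = 4 (Nh a)^2.  So sum (A + B)^2 = 2 sum A^2 + 2 sum B^2 - sum (A - B)^2 = 0, every A i + B i = 0.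
* hom_span: Lsp.ex for w a gives a leading i (in particular b.repr x i ≠ 0) with w a x = w a (b i) = c; Lsp.ex for w (-a) gives a leading i' with w (-a) x = w (-a) (b i') = - w a (b i') = -c (hom_opp).
-/

namespace H1NA

open H50NA MeasureTheory Set Filter Topology Metric

noncomputable section

variable {K : Type} [Field K] (F : VF K) {V : Type} [AddCommGroup V] [Module K V] [Module.Finite K V]
variable {q : V → ℝ} {w : ℂ → V → ℝ} {Nh : ℂ → ℝ}

/-- a bounded concave function on the line is constant -/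
private theorem La_conc (G : ℝ → ℝ) (B : ℝ) (hB : ∀ s, |G s| ≤ B)
    (hc : ∀ s1 s2 t : ℝ, 0 ≤ t → t ≤ 1 → (1 - t) * G s1 + t * G s2 ≤ G ((1 - t) * s1 + t * s2))
    (s s' : ℝ) : G s ≤ G s' := by
  have hs := abs_le.1 (hB s)
  refine le_of_forall_pos_le_add fun ε hε => ?_
  have hD : 0 < G s + B + 1 := by linarith [hs.1]
  obtain ⟨t, ht0, ht1, ht2⟩ : ∃ t : ℝ, 0 < t ∧ t ≤ 1 ∧ t * (G s + B + 1) ≤ ε := by
    refine ⟨min 1 (ε / (G s + B + 1)), lt_min one_pos (div_pos hε hD), min_le_left _ _, ?_⟩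
    calc min 1 (ε / (G s + B + 1)) * (G s + B + 1) ≤ ε / (G s + B + 1) * (G s + B + 1) :=
          mul_le_mul_of_nonneg_right (min_le_right _ _) hD.le
      _ = ε := div_mul_cancel₀ _ hD.ne'
  have h1 := hc s (s + (s' - s) / t) t ht0.le ht1
  have e : (1 - t) * s + t * (s + (s' - s) / t) = s' := by
    have : t * ((s' - s) / t) = s' - s := mul_div_cancel₀ _ ht0.ne'
    linear_combination this
  rw [e] at h1
  have h2 := abs_le.1 (hB (s + (s' - s) / t))
  have h3 : t * (-B) ≤ t * G (s + (s' - s) / t) := mul_le_mul_of_nonneg_left h2.1 ht0.le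
  nlinarith

theorem hom_dist (H : Hom F q w Nh) (z z' : ℂ) : dT F q (w z) (w z') = Nh (z' - z) := by
  rw [← H.dn z (z' - z), add_sub_cancel]

theorem hom_nn (H : Hom F q w Nh) (a : ℂ) : 0 ≤ Nh a := by
  rw [← H.dn 0 a]
  exact dT_nn F q _ _

theorem hom_abs (hq : SN F q) (H : Hom F q w Nh) (z a : ℂ) (x : V) : |w (z + a) x - w z x| ≤ Nh a := by
  rw [← H.dn z a]
  exact abs_le_dT F hq (H.tq z) (H.tq (z + a)) x

private theorem La_ln (H : Hom F q w Nh) (z a : ℂ) (s s' : ℝ) :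
    dT F q (w (z + (s : ℂ) * a)) (w (z + (s' : ℂ) * a)) = |s' - s| * Nh a := by
  rw [hom_dist F H, ← H.hom (s' - s) a]
  congr 1
  push_cast
  ring

theorem hom_line (hq : SN F q) (H : Hom F q w Nh) (z a : ℂ) (s1 s2 : ℝ) {t : ℝ} (ht0 : 0 ≤ t) (ht1 : t ≤ 1)
    (x : V) : (1 - t) * w (z + (s1 : ℂ) * a) x + t * w (z + (s2 : ℂ) * a) x ≤
      w (z + (((1 - t) * s1 + t * s2 : ℝ) : ℂ) * a) x := by
  refine dT_geo_ge F hq (H.tq _) (H.tq _) (H.tq _) ht0 ht1 ?_ ?_ x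
  · rw [La_ln F H, La_ln F H]
    have e : (1 - t) * s1 + t * s2 - s1 = t * (s2 - s1) := by ring
    rw [e, abs_mul, abs_of_nonneg ht0, mul_assoc]
  · rw [La_ln F H, La_ln F H]
    have e : s2 - ((1 - t) * s1 + t * s2) = (1 - t) * (s2 - s1) := by ring
    rw [e, abs_mul, abs_of_nonneg (by linarith : (0 : ℝ) ≤ 1 - t), mul_assoc]

private theorem La_ray1 (hq : SN F q) (H : Hom F q w Nh) {t : ℝ} (ht : 0 ≤ t) (ht1 : t ≤ 1) (z : ℂ) :
    w ((t : ℂ) * z) = fun x => t * w z x := by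
  have e0 : (0 : ℂ) = 0 + ((0 : ℝ) : ℂ) * z := by simp
  have e1 : z = 0 + ((1 : ℝ) : ℂ) * z := by simp
  have et : (t : ℂ) * z = 0 + (t : ℂ) * z := by simp
  obtain ⟨b, hb0, hbz⟩ := tq_common F hq (H.tq 0) (H.tq z)
  have d01 : dT F q (w 0) (w z) = |(1 : ℝ) - 0| * Nh z := by
    rw [← La_ln F H 0 z 0 1, ← e0, ← e1]
  have d0t : dT F q (w 0) (w ((t : ℂ) * z)) = |t - 0| * Nh z := by
    rw [← La_ln F H 0 z 0 t, ← e0, ← et]
  have dt1 : dT F q (w ((t : ℂ) * z)) (w z) = |(1 : ℝ) - t| * Nh z := by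
    rw [← La_ln F H 0 z t 1, ← e1, ← et]
  rw [sub_zero, abs_one, one_mul] at d01
  rw [sub_zero, abs_of_nonneg ht] at d0t
  rw [abs_of_nonneg (by linarith : (0 : ℝ) ≤ 1 - t)] at dt1
  obtain ⟨h1, h2⟩ := dT_geo F hq (H.tq 0) (H.tq z) (H.tq ((t : ℂ) * z)) ht ht1
    (by rw [d01, d0t]) (by rw [d01, dt1]) hb0 hbz
  refine lsp_ext F h1 (lsp_scale F hbz ht) fun i => ?_
  rw [h2 i, H.zero, mul_zero, zero_add]

theorem hom_ray (hq : SN F q) (H : Hom F q w Nh) {t : ℝ} (ht : 0 ≤ t) (z : ℂ) :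
    w ((t : ℂ) * z) = fun x => t * w z x := by
  rcases le_total t 1 with ht1 | ht1
  · exact La_ray1 F hq H ht ht1 z
  · have htp : 0 < t := by linarith
    have h1 := La_ray1 F hq H (t := 1 / t) (by positivity) (by rw [div_le_one htp]; exact ht1)
      ((t : ℂ) * z)
    have htc : (t : ℂ) ≠ 0 := by exact_mod_cast htp.ne'
    have e : ((1 / t : ℝ) : ℂ) * ((t : ℂ) * z) = z := by
      push_cast
      rw [← mul_assoc, one_div, inv_mul_cancel₀ htc, one_mul]
    rw [e] at h1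
    funext x
    rw [h1]
    change _ = t * (1 / t * w ((t : ℂ) * z) x)
    rw [← mul_assoc, mul_one_div_cancel htp.ne', one_mul]

theorem hom_shift (hq : SN F q) (H : Hom F q w Nh) {a : ℂ} {x : V} {c : ℝ} (h1 : w a x = c)
    (h2 : w (-a) x = -c) (z : ℂ) (t : ℝ) : w (z + (t : ℂ) * a) x = w z x + t * c := by
  have hW : ∀ s : ℝ, w ((s : ℂ) * a) x = s * c := by
    intro s
    rcases le_total 0 s with hs | hs
    · rw [hom_ray F hq H hs a, ← h1]
    · have e : (s : ℂ) * a = ((-s : ℝ) : ℂ) * (-a) := by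
        push_cast
        ring
      rw [e, hom_ray F hq H (by linarith : 0 ≤ -s) (-a)]
      change -s * w (-a) x = s * c
      rw [h2]
      ring
  have hB : ∀ s : ℝ, |w (z + (s : ℂ) * a) x - s * c| ≤ Nh z := by
    intro s
    have h3 := hom_abs F hq H ((s : ℂ) * a) z x
    rw [hW s, add_comm] at h3
    exact h3
  have hc : ∀ s1 s2 t : ℝ, 0 ≤ t → t ≤ 1 →
      (1 - t) * (w (z + (s1 : ℂ) * a) x - s1 * c) + t * (w (z + (s2 : ℂ) * a) x - s2 * c) ≤
      w (z + (((1 - t) * s1 + t * s2 : ℝ) : ℂ) * a) x - ((1 - t) * s1 + t * s2) * c := by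
    intro s1 s2 t ht0 ht1
    have h3 := hom_line F hq H z a s1 s2 ht0 ht1 x
    linarith
  have k1 := La_conc (fun s => w (z + (s : ℂ) * a) x - s * c) (Nh z) hB hc t 0
  have k2 := La_conc (fun s => w (z + (s : ℂ) * a) x - s * c) (Nh z) hB hc 0 t
  simp only [Complex.ofReal_zero, zero_mul, add_zero, sub_zero] at k1 k2
  linarith

theorem hom_opp (hq : SN F q) (H : Hom F q w Nh) {a : ℂ} {b : Bs K V} (h1 : Lsp F q b (w a))
    (h2 : Lsp F q b (w (-a))) (i : Fin (Module.finrank K V)) : w (-a) (b i) = - w a (b i) := by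
  have h0 : Lsp F q b (w 0) := by
    rw [H.zero]
    exact lsp_zero F h1.spl
  have s1 := dT_eq F hq h0 h1
  have s2 := dT_eq F hq h0 h2
  have s3 := dT_eq F hq h2 h1
  have n2 : Nh (-a) = Nh a := by
    have := H.hom (-1) a
    rw [abs_neg, abs_one, one_mul] at this
    rw [← this]
    congr 1
    push_cast
    ring
  have n3 : Nh (a - -a) = 2 * Nh a := by
    have := H.hom 2 a
    rw [abs_of_nonneg (by norm_num : (0 : ℝ) ≤ 2)] at this
    rw [← this]
    congr 1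
    push_cast
    ring
  rw [hom_dist F H, sub_zero, H.zero] at s1
  rw [hom_dist F H, sub_zero, n2, H.zero] at s2
  rw [hom_dist F H, n3] at s3
  simp only [sub_zero] at s1 s2
  have hsum : ∑ i, (w a (b i) + w (-a) (b i)) ^ 2 = 0 := by
    have e : ∑ i, (w a (b i) + w (-a) (b i)) ^ 2 = 2 * ∑ i, w a (b i) ^ 2 + 2 * ∑ i, w (-a) (b i) ^ 2 -
        ∑ i, (w a (b i) - w (-a) (b i)) ^ 2 := by
      rw [Finset.mul_sum, Finset.mul_sum, ← Finset.sum_add_distrib, ← Finset.sum_sub_distrib]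
      exact Finset.sum_congr rfl fun i _ => by ring
    rw [e, ← s1, ← s2, ← s3]
    ring
  have h3 := (Finset.sum_eq_zero_iff_of_nonneg fun i _ => sq_nonneg _).1 hsum i (Finset.mem_univ i)
  have h4 := (pow_eq_zero_iff two_ne_zero).1 h3
  linarith

theorem hom_span (hq : SN F q) (H : Hom F q w Nh) {a : ℂ} {b : Bs K V} (h1 : Lsp F q b (w a))
    (h2 : Lsp F q b (w (-a))) (c : ℝ) {x : V} (hx : x ≠ 0)
    (hc : ∀ j, b.repr x j ≠ 0 → w a (b j) = c) : w a x = c ∧ w (-a) x = -c := by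
  obtain ⟨i, hi, he⟩ := h1.ex x hx
  obtain ⟨i', hi', he'⟩ := h2.ex x hx
  refine ⟨by rw [he, hc i hi.1], ?_⟩
  rw [he', hom_opp F hq H h1 h2, hc i' hi'.1]

end

end H1NA
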