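import Pool.Agent.H1.NA.Df
import Pool.Agent.H31.NA.GM

set_option autoImplicit false

/-!
# Row Lb (MP_b319aa_NA, block B): parts of a vector with respect to a labelling of a basis

prt e lam a x = sum of x_j e_j over the j with label lam j = a.  Ecl e lam s b = span of the e_j with lam j = s b.
PROOFS.
* prt_repr: map_sum, Module.Basis.repr_self, Finsupp.single_apply, Finset.sum_ite_eq.
* prt_cls: prt_repr.   prt_self: e.repr.injective and prt_repr, or Finset.sum_filter and e.sum_repr.
* prt_sum: Finset.sum_fiberwise_of_maps_to and e.sum_repr, or coordinates.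
* prt_ge: Spl at prt (≠ 0): some j with coordinate ≠ 0 (so lam j = a and the coordinate is x_j ≠ 0) and q (prt) = v x_j + q (e j) ≥ q x (Spl at x).
* prt_ex: Spl at x gives j with x_j ≠ 0 and q x = v x_j + q (e j).  a := lam j: prt ≠ 0 (coordinate j is x_j ≠ 0), q (prt) ≤ v x_j + q (e j) = q x (Spl at prt), and ≥ by prt_ge.
* prt_pair: coordinates (e.repr.injective, Finsupp.ext): A j = c iff mu j = c.re and nu j = c.im (Complex.ext_iff).
* lab_enum: the range of lam is finite: N := card of (Finset.univ.image lam), s := composition of Fin N ≃ this finset (Finset.equivFin .symm) with the coercion.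
* ecl_mem: Module.Basis.mem_span_image (support subset).
* ecl_int: DirectSum.IsInternal = bijectivity of DirectSum.coeAddMonoidHom.  Injective: if sum of y b = 0 with y b ∈ Ecl b then for each j only the b with s b = lam j can contribute to the coordinate j
  (s injective), so all coordinates of all y b vanish.  Surjective: x = sum over b of prt e lam (s b) x (prt_sum and hr, s injective).  Or use DirectSum.isInternal_submodule_of_iSupIndep_of_iSup_eq_top with
  iSupIndep from linear independence.
* ecl_cpt: H31NA.cpt_uniq with y b = prt e lam (s b) x (in Ecl b by ecl_mem, prt_cls; sum = x).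
* ecl_nz: s b is a label (hr): s b = lam j, and e j ∈ Ecl b is not zero.
-/

namespace H1NA

open H50NA MeasureTheory Set Filter Topology Metric

noncomputable section

variable {K : Type} [Field K] (F : VF K) {V : Type} [AddCommGroup V] [Module K V]
variable {A : Type}

open Classical in
theorem prt_repr (e : Bs K V) (lam : Fin (Module.finrank K V) → A) (a : A) (x : V)
    (j : Fin (Module.finrank K V)) : e.repr (prt e lam a x) j = if lam j = a then e.repr x j else 0 := by
  have h1 : ∀ i, e.repr (e.repr x i • e i) j = if i = j then e.repr x i else 0 := by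
    intro i
    rw [map_smul, Module.Basis.repr_self, Finsupp.smul_apply, Finsupp.single_apply]
    split_ifs
    · rw [smul_eq_mul, mul_one]
    · rw [smul_zero]
  unfold prt
  rw [map_sum, Finsupp.finsetSum_apply, Finset.sum_congr rfl fun i _ => h1 i, Finset.sum_ite_eq']
  simp only [Finset.mem_filter, Finset.mem_univ, true_and]

theorem prt_cls (e : Bs K V) (lam : Fin (Module.finrank K V) → A) (a : A) (x : V)
    (j : Fin (Module.finrank K V)) (h : e.repr (prt e lam a x) j ≠ 0) : lam j = a := by
  classical
  by_contra h1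
  rw [prt_repr, if_neg h1] at h
  exact h rfl

theorem prt_self (e : Bs K V) (lam : Fin (Module.finrank K V) → A) (a : A) (x : V)
    (h : ∀ j, e.repr x j ≠ 0 → lam j = a) : prt e lam a x = x := by
  classical
  apply e.repr.injective
  ext j
  rw [prt_repr]
  split_ifs with h1
  · rfl
  · by_contra h2
    exact h1 (h j fun h3 => h2 h3.symm)

open Classical in
theorem prt_sum (e : Bs K V) (lam : Fin (Module.finrank K V) → A) (x : V) :
    ∑ a ∈ Finset.univ.image lam, prt e lam a x = x := by
  apply e.repr.injective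
  ext j
  rw [map_sum, Finsupp.finsetSum_apply, Finset.sum_congr rfl fun a _ => prt_repr e lam a x j,
    Finset.sum_ite_eq, if_pos (Finset.mem_image_of_mem lam (Finset.mem_univ j))]

theorem prt_out (e : Bs K V) (lam : Fin (Module.finrank K V) → A) (a : A) (x : V)
    (h : prt e lam a x ≠ 0) : ∃ j, lam j = a := by
  classical
  by_contra h1
  push Not at h1
  apply h
  apply e.repr.injective
  ext j
  rw [prt_repr, if_neg (h1 j), map_zero]
  rfl

private theorem Lb_eq (e : Bs K V) {lam : Fin (Module.finrank K V) → A} {a : A} {x : V}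
    {j : Fin (Module.finrank K V)} (h : lam j = a) : e.repr (prt e lam a x) j = e.repr x j := by
  classical
  rw [prt_repr, if_pos h]

theorem prt_ge {q : V → ℝ} {e : Bs K V} (he : Spl F e q) (lam : Fin (Module.finrank K V) → A) (a : A)
    {x : V} (hx : x ≠ 0) (h : prt e lam a x ≠ 0) : q x ≤ q (prt e lam a x) := by
  obtain ⟨-, j, hj, h2⟩ := he _ h
  have h3 := prt_cls e lam a x j hj
  rw [Lb_eq e h3] at hj h2
  rw [h2]
  exact (he x hx).1 j hj

theorem prt_ex {q : V → ℝ} {e : Bs K V} (he : Spl F e q) (lam : Fin (Module.finrank K V) → A)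
    {x : V} (hx : x ≠ 0) : ∃ a, prt e lam a x ≠ 0 ∧ q (prt e lam a x) = q x := by
  obtain ⟨h1, j, hj, h2⟩ := he x hx
  have h3 : e.repr (prt e lam (lam j) x) j = e.repr x j := Lb_eq e rfl
  have hne : prt e lam (lam j) x ≠ 0 := by
    intro h0
    rw [h0, map_zero] at h3
    exact hj h3.symm
  refine ⟨lam j, hne, le_antisymm ?_ (prt_ge F he lam _ hx hne)⟩
  have h4 := (he _ hne).1 j (by rw [h3]; exact hj)
  rw [h3] at h4
  rw [h2]
  exact h4

theorem prt_pair (e : Bs K V) (mu nu : Fin (Module.finrank K V) → ℝ) (c : ℂ) (x : V) :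
    prt e (fun j => ((⟨mu j, nu j⟩ : ℂ))) c x = prt e nu c.im (prt e mu c.re x) := by
  classical
  apply e.repr.injective
  ext j
  rw [prt_repr, prt_repr, prt_repr]
  by_cases h1 : mu j = c.re
  · by_cases h2 : nu j = c.im
    · rw [if_pos (Complex.ext h1 h2), if_pos h2, if_pos h1]
    · rw [if_neg (fun h => h2 (congrArg Complex.im h)), if_neg h2]
  · rw [if_neg (fun h => h1 (congrArg Complex.re h))]
    rw [if_neg h1, ite_self]

theorem lab_enum (lam : Fin (Module.finrank K V) → A) :
    ∃ (N : ℕ) (s : Fin N → A), Function.Injective s ∧ ∀ a, (∃ b, s b = a) ↔ ∃ j, lam j = a := by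
  classical
  refine ⟨(Finset.univ.image lam).card, fun b => ((Finset.univ.image lam).equivFin.symm b : A), ?_, ?_⟩
  · exact Subtype.val_injective.comp (Finset.univ.image lam).equivFin.symm.injective
  · intro a
    constructor
    · rintro ⟨b, hb⟩
      have h1 := ((Finset.univ.image lam).equivFin.symm b).2
      rw [Finset.mem_image] at h1
      obtain ⟨j, -, hj⟩ := h1
      exact ⟨j, hj.trans hb⟩
    · rintro ⟨j, rfl⟩
      refine ⟨(Finset.univ.image lam).equivFin ⟨lam j, Finset.mem_image_of_mem lam (Finset.mem_univ j)⟩, ?_⟩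
      simp only [Equiv.symm_apply_apply]

variable {N : ℕ} {s : Fin N → A}

theorem ecl_mem (e : Bs K V) (lam : Fin (Module.finrank K V) → A) (s : Fin N → A) (b : Fin N) (x : V) :
    x ∈ Ecl e lam s b ↔ ∀ j, e.repr x j ≠ 0 → lam j = s b := by
  unfold Ecl
  rw [Module.Basis.mem_span_image]
  constructor
  · intro h j hj
    exact h (Finsupp.mem_support_iff.2 hj)
  · intro h j hj
    exact h j (Finsupp.mem_support_iff.1 hj)

private theorem Lb_mem (e : Bs K V) (lam : Fin (Module.finrank K V) → A) (s : Fin N → A) (b : Fin N) (x : V) :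
    prt e lam (s b) x ∈ Ecl e lam s b :=
  (ecl_mem e lam s b _).2 fun j hj => prt_cls e lam (s b) x j hj

private theorem Lb_sum (e : Bs K V) {lam : Fin (Module.finrank K V) → A} (hs : Function.Injective s)
    (hr : ∀ a, (∃ b, s b = a) ↔ ∃ j, lam j = a) (x : V) : ∑ b, prt e lam (s b) x = x := by
  classical
  apply e.repr.injective
  ext j
  obtain ⟨b0, hb0⟩ := (hr (lam j)).2 ⟨j, rfl⟩
  rw [map_sum, Finsupp.finsetSum_apply, Finset.sum_congr rfl fun b _ => prt_repr e lam (s b) x j,
    Finset.sum_eq_single b0]
  · rw [if_pos hb0.symm]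
  · intro b _ hb
    rw [if_neg fun h => hb (hs (h.symm.trans hb0.symm))]
  · intro h
    exact absurd (Finset.mem_univ b0) h

theorem ecl_int (e : Bs K V) {lam : Fin (Module.finrank K V) → A} (hs : Function.Injective s)
    (hr : ∀ a, (∃ b, s b = a) ↔ ∃ j, lam j = a) : DirectSum.IsInternal (Ecl e lam s) := by
  classical
  have hinj : Function.Injective (DirectSum.coeLinearMap (Ecl e lam s)) := by
    rw [injective_iff_map_eq_zero]
    intro y hy
    rw [H31NA.clm_eq] at hy
    apply DFinsupp.ext
    intro b
    apply Subtype.ext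
    show (y b : V) = 0
    apply e.repr.injective
    ext j
    rw [map_zero]
    show e.repr (y b : V) j = 0
    by_contra h1
    have h2 := (ecl_mem e lam s b _).1 (y b).2 j h1
    have h3 := congrArg (fun z => e.repr z j) hy
    simp only [map_sum, Finsupp.finsetSum_apply, map_zero] at h3
    rw [Finset.sum_eq_single b] at h3
    · exact h1 h3
    · intro b' _ hb'
      by_contra h4
      have h5 := (ecl_mem e lam s b' _).1 (y b').2 j h4
      exact hb' (hs (h5.symm.trans h2))
    · intro h
      exact absurd (Finset.mem_univ b) h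
  refine ⟨hinj, fun x => ?_⟩
  refine ⟨∑ b, DirectSum.lof K (Fin N) (fun i => Ecl e lam s i) b ⟨prt e lam (s b) x, Lb_mem e lam s b x⟩, ?_⟩
  change (DirectSum.coeLinearMap (Ecl e lam s)) _ = x
  rw [map_sum]
  refine Eq.trans (Finset.sum_congr rfl fun b _ => ?_) (Lb_sum e hs hr x)
  exact DirectSum.coeLinearMap_lof (Ecl e lam s) b ⟨prt e lam (s b) x, Lb_mem e lam s b x⟩

theorem ecl_cpt (e : Bs K V) {lam : Fin (Module.finrank K V) → A} (hs : Function.Injective s)
    (hr : ∀ a, (∃ b, s b = a) ↔ ∃ j, lam j = a) (b : Fin N) (x : V) :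
    cpt (Ecl e lam s) b x = prt e lam (s b) x := by
  exact H31NA.cpt_uniq (ecl_int e hs hr) (y := fun b => prt e lam (s b) x)
    (fun b => Lb_mem e lam s b x) (Lb_sum e hs hr x) b

theorem ecl_nz (e : Bs K V) {lam : Fin (Module.finrank K V) → A}
    (hr : ∀ a, (∃ b, s b = a) ↔ ∃ j, lam j = a) (b : Fin N) : Ecl e lam s b ≠ ⊥ := by
  obtain ⟨j, hj⟩ := (hr (s b)).1 ⟨b, rfl⟩
  intro h
  have h1 : e j ∈ Ecl e lam s b := Submodule.subset_span ⟨j, hj, rfl⟩
  rw [h, Submodule.mem_bot] at h1
  exact e.ne_zero j h1

end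

end H1NA
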