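import Pool.Agent.H1.NA.Ta
import Pool.Agent.H31.NA.GC

set_option autoImplicit false

/-!
# Row Td (MP_b319aa_NA, block B): tangent vectors at sums

PROOFS.  x = sum over j in s of f j, x ≠ 0, q (f j) ≥ q x for all j in s with f j ≠ 0.  r from rad_ex, s0 > 0 with |s0 h| < r (Ta.lsp_small), al := q + s0 h is split by b (Ta.lsp_spl), al 0 = 0, so al is
 a norm (H31NA.spl_nrm in Pool/Agent/H31/NA/GB.lean); gap: if f j ≠ 0 and q (f j) ≠ q x then q (f j) ≥ q x + 4 r (Rad).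
* sum_ge: H31NA.nrm_sum for al: some j in s with f j ≠ 0 and al (f j) ≤ al x, i.e. q (f j) + s0 h (f j) ≤ q x + s0 h x < q x + r, and s0 h (f j) > - r, so q (f j) < q x + 2 r: q (f j) = q x, and then
  h (f j) ≤ h x.
* sum_eq: for j ≠ j0 in s with f j ≠ 0: al (f j0) < al (f j) [q (f j) = q x: hypothesis; otherwise q (f j) + s0 h (f j) > q x + 4 r - r > q x + s0 h (f j0)].  Let y = sum over s \ {j0} of f j
  (Finset.add_sum_erase: x = f j0 + y).  If y = 0 then x = f j0.  Otherwise nrm_sum for y: al y ≥ al (f j) for some j ≠ j0 with f j ≠ 0, so al y > al (f j0) and al x = al (f j0) (H31NA.nrm_strict); as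
  q (f j0) = q x we get h x = h (f j0).
-/

namespace H1NA

open H50NA MeasureTheory Set Filter Topology Metric

noncomputable section

variable {K : Type} [Field K] (F : VF K) {V : Type} [AddCommGroup V] [Module K V] [Module.Finite K V]

theorem sum_ge {q h : V → ℝ} (hq : SN F q) {b : Bs K V} (h1 : Lsp F q b h) {ι : Type} (s : Finset ι)
    (f : ι → V) {x : V} (hx : x ≠ 0) (hs : ∑ j ∈ s, f j = x) (hge : ∀ j ∈ s, f j ≠ 0 → q x ≤ q (f j)) :
    ∃ j ∈ s, f j ≠ 0 ∧ q (f j) = q x ∧ h (f j) ≤ h x := by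
  obtain ⟨r, hr⟩ := rad_ex F hq
  obtain ⟨s0, hs0, hsm0⟩ := lsp_small F h1 hr.1
  have hsm := hsm0 s0 hs0 le_rfl
  have hspl := lsp_spl F hq hr hs0 h1 hsm
  have h0 : (fun x => q x + s0 * h x) 0 = 0 := by
    show q 0 + s0 * h 0 = 0
    rw [hq.1, h1.zero, mul_zero, add_zero]
  have hN : Nrm F (fun x => q x + s0 * h x) := H31NA.spl_nrm F hspl h0
  obtain ⟨j, hj, hj0, hle⟩ := H31NA.nrm_sum F hN s f (by rw [hs]; exact hx)
  rw [hs] at hle
  have e1 := abs_lt.1 (hsm x)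
  have e2 := abs_lt.1 (hsm (f j))
  have hr0 := hr.1
  have hq1 : q (f j) = q x := by
    by_contra hne
    have hlt : q x < q (f j) := lt_of_le_of_ne (hge j hj hj0) (Ne.symm hne)
    have := hr.2 x (f j) hx hj0 hlt
    linarith [e1.2, e2.1]
  refine ⟨j, hj, hj0, hq1, ?_⟩
  have h3 : s0 * h (f j) ≤ s0 * h x := by linarith
  exact le_of_mul_le_mul_left h3 hs0

theorem sum_eq {q h : V → ℝ} (hq : SN F q) {b : Bs K V} (h1 : Lsp F q b h) {ι : Type} (s : Finset ι)
    (f : ι → V) {x : V} (hx : x ≠ 0) (hs : ∑ j ∈ s, f j = x) (hge : ∀ j ∈ s, f j ≠ 0 → q x ≤ q (f j))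
    {j0 : ι} (hj : j0 ∈ s) (hj0 : f j0 ≠ 0) (hj1 : q (f j0) = q x)
    (hlt : ∀ j ∈ s, j ≠ j0 → f j ≠ 0 → q (f j) = q x → h (f j0) < h (f j)) : h x = h (f j0) := by
  classical
  obtain ⟨r, hr⟩ := rad_ex F hq
  obtain ⟨s0, hs0, hsm0⟩ := lsp_small F h1 hr.1
  have hsm := hsm0 s0 hs0 le_rfl
  have hspl := lsp_spl F hq hr hs0 h1 hsm
  have h0 : (fun x => q x + s0 * h x) 0 = 0 := by
    show q 0 + s0 * h 0 = 0
    rw [hq.1, h1.zero, mul_zero, add_zero]
  have hN : Nrm F (fun x => q x + s0 * h x) := H31NA.spl_nrm F hspl h0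
  have hr0 := hr.1
  have hlt' : ∀ j ∈ s, j ≠ j0 → f j ≠ 0 → q (f j0) + s0 * h (f j0) < q (f j) + s0 * h (f j) := by
    intro j hjs hne hf
    by_cases hqq : q (f j) = q x
    · have h2 := mul_lt_mul_of_pos_left (hlt j hjs hne hf hqq) hs0
      rw [hqq, hj1]
      linarith
    · have hlt2 : q x < q (f j) := lt_of_le_of_ne (hge j hjs hf) (Ne.symm hqq)
      have h2 := hr.2 x (f j) hx hf hlt2
      have e1 := abs_lt.1 (hsm (f j0))
      have e2 := abs_lt.1 (hsm (f j))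
      rw [hj1]
      linarith [e1.2, e2.1]
  have hxy : f j0 + ∑ j ∈ s.erase j0, f j = x := by
    rw [← hs]
    exact Finset.add_sum_erase s f hj
  by_cases hy : ∑ j ∈ s.erase j0, f j = 0
  · rw [hy, add_zero] at hxy
    rw [hxy]
  · obtain ⟨j, hjs, hf, hle⟩ := H31NA.nrm_sum F hN (s.erase j0) f hy
    have h3 := hlt' j (Finset.mem_of_mem_erase hjs) (Finset.ne_of_mem_erase hjs) hf
    have h4 := H31NA.nrm_strict F hN hj0 hy (lt_of_lt_of_le h3 hle)
    rw [hxy] at h4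
    have h5 := h4.2
    rw [hj1] at h5
    have h6 : s0 * h x = s0 * h (f j0) := by linarith
    exact mul_left_cancel₀ hs0.ne' h6

end

end H1NA
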