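import Pool.Agent.H1.NA.La
import Pool.Agent.H1.NA.Lb
import Pool.Agent.H1.NA.Td

set_option autoImplicit false

/-!
# Row Lc (MP_b319aa_NA, block B): splitting by homogeneous weights

PROOF of split_lab.  Fix z and x ≠ 0.  T := Finset.univ.image lam, f c := prt e lam c x; sum over T of f c = x (Lb.prt_sum), q x ≤ q (f c) if f c ≠ 0 (Lb.prt_ge); prt_out: f c ≠ 0 implies c ∈ T.
 J := {c ∈ T : f c ≠ 0 and q (f c) = q x}, a non empty finset (Lb.prt_ex).  D c := w z (f c).
 (1) for c with f c ≠ 0 and every real t: w (z + t a) (f c) = D c + t c (La.hom_shift; hypothesis hl c (f c) with Lb.prt_cls).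
 (2) there is d > 0 such that for 0 < t < d the numbers D c + t c, c in J, are pairwise different: for c ≠ c' in J the equality D c + t c = D c' + t c' holds for at most one t, t = (D c' - D c)/(c - c');
     take d smaller than all the positive ones of these finitely many numbers (or: eventually in 𝓝[>] 0, finite intersection: for c ≠ c' in J the set of bad t is finite, its complement intersected with
     (0, ∞) is a neighbourhood within (0,∞) of 0: e.g. if D c = D c' every t > 0 is good, otherwise by continuity at t = 0 the values stay different for small t).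
 (3) for such t let c0 in J minimise D c + t c (Finset.exists_min_image): by (2) strictly smaller than the values of the other c in J: Td.sum_eq applied to h := w (z + t a) (a tangent vector, H.tq; it has a
     splitting basis), s := T, j0 := c0: w (z + t a) x = D c0 + t c0.  So w (z + t a) x ≤ D c + t c for every c in J, and w (z + t a) x ≥ m - t C, m := min over J of D, C := sum over T of |c|.
 (4) |w (z + t a) x - w z x| ≤ Nh (t a) = |t| Nh a (La.hom_abs, H.hom): let t → 0+ : w z x ≤ D c for c in J and w z x ≥ m = D c1 for some c1 in J.  So w z x = D c1.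
PROOF of tsl_pair.  x ≠ 0.  Tsl for mu: a1 with y := prt e mu a1 x ≠ 0, q y = q x, h x = h y.  Tsl for nu at y: a2 with z := prt e nu a2 y ≠ 0, q z = q y, h y = h z.  c := a1 + a2 I: prt (pair) c x = z
 (Lb.prt_pair).  Upper bounds: c with p := prt (pair) c x ≠ 0, q p = q x.  y := prt e mu c.re x; p = prt e nu c.im y, so y ≠ 0 (prt of 0 is 0), q x ≤ q y ≤ q p = q x (Lb.prt_ge twice), so
 h x ≤ h y ≤ h p.
-/

namespace H1NA

open H50NA MeasureTheory Set Filter Topology Metric

noncomputable section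

variable {K : Type} [Field K] (F : VF K) {V : Type} [AddCommGroup V] [Module K V] [Module.Finite K V]
variable {q : V → ℝ} {w : ℂ → V → ℝ} {Nh : ℂ → ℝ}

private theorem Lc_evne {A B c c' : ℝ} (h : c ≠ c') : ∀ᶠ t in 𝓝[>] (0 : ℝ), A + t * c ≠ B + t * c' := by
  by_cases hAB : A = B
  · filter_upwards [self_mem_nhdsWithin] with t ht
    have ht' : (0:ℝ) < t := ht
    intro h1
    rw [hAB, add_right_inj] at h1
    exact h (mul_left_cancel₀ ht'.ne' h1)
  · have h1 : Tendsto (fun t : ℝ => A + t * c - (B + t * c')) (𝓝[>] 0) (𝓝 (A - B)) := by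
      have h2 : Continuous (fun t : ℝ => A + t * c - (B + t * c')) := by fun_prop
      have h3 := h2.tendsto 0
      simp only [zero_mul, add_zero] at h3
      exact h3.mono_left nhdsWithin_le_nhds
    filter_upwards [h1.eventually_ne (sub_ne_zero.2 hAB)] with t ht
    exact sub_ne_zero.1 ht

theorem split_lab (hq : SN F q) (H : Hom F q w Nh) {e : Bs K V} (he : Spl F e q) {a : ℂ}
    {lam : Fin (Module.finrank K V) → ℝ}
    (hl : ∀ (c : ℝ) (x : V), x ≠ 0 → (∀ j, e.repr x j ≠ 0 → lam j = c) → w a x = c ∧ w (-a) x = -c)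
    (z : ℂ) : Tsl q e lam (w z) := by
  classical
  intro x hx
  obtain ⟨T, hsum, hT⟩ : ∃ T : Finset ℝ, ∑ c ∈ T, prt e lam c x = x ∧ ∀ c, prt e lam c x ≠ 0 → c ∈ T := by
    refine ⟨_, prt_sum e lam x, fun c hc => ?_⟩
    obtain ⟨j, hj⟩ := prt_out e lam c x hc
    exact Finset.mem_image.2 ⟨j, Finset.mem_univ j, hj⟩
  have hge : ∀ c ∈ T, prt e lam c x ≠ 0 → q x ≤ q (prt e lam c x) :=
    fun c _ h => prt_ge F he lam c hx h
  set J : Finset ℝ := T.filter
    (fun c => prt e lam c x ≠ 0 ∧ q (prt e lam c x) = q x) with hJ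
  have hmJ : ∀ c, c ∈ J ↔ prt e lam c x ≠ 0 ∧ q (prt e lam c x) = q x := by
    intro c
    rw [hJ, Finset.mem_filter]
    exact ⟨fun h => h.2, fun h => ⟨hT c h.1, h⟩⟩
  have hJne : J.Nonempty := by
    obtain ⟨c, h1, h2⟩ := prt_ex F he lam hx
    exact ⟨c, (hmJ c).2 ⟨h1, h2⟩⟩
  have hsh : ∀ c, prt e lam c x ≠ 0 → ∀ t : ℝ,
      w (z + (t : ℂ) * a) (prt e lam c x) = w z (prt e lam c x) + t * c := by
    intro c hc t
    have h1 := hl c (prt e lam c x) hc (fun j hj => prt_cls e lam c x j hj)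
    exact hom_shift F hq H h1.1 h1.2 z t
  have hev : ∀ᶠ t in 𝓝[>] (0 : ℝ), ∀ c ∈ J, ∀ c' ∈ J, c ≠ c' →
      w z (prt e lam c x) + t * c ≠ w z (prt e lam c' x) + t * c' := by
    rw [Finset.eventually_all]
    intro c _
    rw [Finset.eventually_all]
    intro c' _
    by_cases hcc : c = c'
    · exact Eventually.of_forall fun t h => absurd hcc h
    · filter_upwards [Lc_evne (A := w z (prt e lam c x)) (B := w z (prt e lam c' x)) hcc] with t ht _
      exact ht
  have hval : ∀ᶠ t : ℝ in 𝓝[>] (0 : ℝ), ∃ c0 ∈ J, w (z + (t : ℂ) * a) x = w z (prt e lam c0 x) + t * c0 ∧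
      ∀ c ∈ J, w z (prt e lam c0 x) + t * c0 ≤ w z (prt e lam c x) + t * c := by
    filter_upwards [hev] with t ht
    obtain ⟨c0, hc0, hmin⟩ := Finset.exists_min_image J (fun c : ℝ => w z (prt e lam c x) + t * c) hJne
    refine ⟨c0, hc0, ?_, hmin⟩
    obtain ⟨b, hb⟩ := H.tq (z + (t : ℂ) * a)
    have h0 := (hmJ c0).1 hc0
    rw [← hsh c0 h0.1 t]
    refine sum_eq F hq hb T (fun c => prt e lam c x) hx hsum hge (hT c0 h0.1) h0.1 h0.2 ?_
    intro c _ hne hcne hcq
    have hcJ : c ∈ J := (hmJ c).2 ⟨hcne, hcq⟩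
    show w (z + (t : ℂ) * a) (prt e lam c0 x) < w (z + (t : ℂ) * a) (prt e lam c x)
    rw [hsh c0 h0.1 t, hsh c hcne t]
    exact lt_of_le_of_ne (hmin c hcJ) (ht c0 hc0 c hcJ (Ne.symm hne))
  have hdiff : ∀ t : ℝ, 0 < t → |w (z + (t : ℂ) * a) x - w z x| ≤ t * Nh a := by
    intro t ht
    have h1 := hom_abs F hq H z ((t : ℂ) * a) x
    rwa [H.hom, abs_of_pos ht] at h1
  have hup : ∀ c ∈ J, w z x ≤ w z (prt e lam c x) := by
    intro c hc
    have h1 : Tendsto (fun t : ℝ => w z (prt e lam c x) + t * c + t * Nh a) (𝓝[>] 0)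
        (𝓝 (w z (prt e lam c x))) := by
      have h2 : Continuous (fun t : ℝ => w z (prt e lam c x) + t * c + t * Nh a) := by fun_prop
      have h3 := h2.tendsto 0
      simp only [zero_mul, add_zero] at h3
      exact h3.mono_left nhdsWithin_le_nhds
    refine ge_of_tendsto h1 ?_
    filter_upwards [hval, self_mem_nhdsWithin] with t ht ht0
    obtain ⟨c0, hc0, h4, h5⟩ := ht
    have h6 := abs_le.1 (hdiff t ht0)
    have h7 := h5 c hc
    rw [h4] at h6
    linarith [h6.1]
  refine ⟨fun c h1 h2 => hup c ((hmJ c).2 ⟨h1, h2⟩), ?_⟩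
  obtain ⟨c1, hc1, hmin1⟩ := Finset.exists_min_image J (fun c => w z (prt e lam c x)) hJne
  refine ⟨c1, ((hmJ c1).1 hc1).1, ((hmJ c1).1 hc1).2, le_antisymm (hup c1 hc1) ?_⟩
  have h1 : Tendsto (fun t : ℝ => w z (prt e lam c1 x) - t * (∑ c ∈ J, |c|) - t * Nh a) (𝓝[>] 0)
      (𝓝 (w z (prt e lam c1 x))) := by
    have h2 : Continuous (fun t : ℝ => w z (prt e lam c1 x) - t * (∑ c ∈ J, |c|) - t * Nh a) := by fun_prop
    have h3 := h2.tendsto 0
    simp only [zero_mul, sub_zero] at h3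
    exact h3.mono_left nhdsWithin_le_nhds
  refine le_of_tendsto h1 ?_
  filter_upwards [hval, self_mem_nhdsWithin] with t ht ht0
  obtain ⟨c0, hc0, h4, -⟩ := ht
  have ht0' : (0:ℝ) < t := ht0
  have h6 := abs_le.1 (hdiff t ht0)
  have h7 : w z (prt e lam c1 x) ≤ w z (prt e lam c0 x) := hmin1 c0 hc0
  have h8 : |c0| ≤ ∑ c ∈ J, |c| := Finset.single_le_sum (f := fun c : ℝ => |c|) (fun c _ => abs_nonneg c) hc0
  have h9 : -(t * ∑ c ∈ J, |c|) ≤ t * c0 := by
    have := mul_le_mul_of_nonneg_left h8 ht0'.le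
    have h10 := mul_le_mul_of_nonneg_left (neg_abs_le c0) ht0'.le
    linarith
  rw [h4] at h6
  linarith [h6.2]

theorem tsl_pair {e : Bs K V} (he : Spl F e q) {mu nu : Fin (Module.finrank K V) → ℝ} {h : V → ℝ}
    (h1 : Tsl q e mu h) (h2 : Tsl q e nu h) : Tsl q e (fun j => ((⟨mu j, nu j⟩ : ℂ))) h := by
  intro x hx
  constructor
  · intro c hc hqc
    rw [prt_pair] at hc hqc ⊢
    have hy : prt e mu c.re x ≠ 0 := by
      intro hy
      rw [hy] at hc
      exact hc (by simp [prt])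
    have e1 := prt_ge F he mu c.re hx hy
    have e2 := prt_ge F he nu c.im hy hc
    have e3 : q (prt e mu c.re x) = q x := le_antisymm (e2.trans hqc.le) e1
    exact ((h1 x hx).1 c.re hy e3).trans ((h2 _ hy).1 c.im hc (hqc.trans e3.symm))
  · obtain ⟨a1, hy, hqy, hhy⟩ := (h1 x hx).2
    obtain ⟨a2, hz, hqz, hhz⟩ := (h2 _ hy).2
    refine ⟨⟨a1, a2⟩, ?_, ?_, ?_⟩
    · rw [prt_pair]; exact hz
    · rw [prt_pair]; exact hqz.trans hqy
    · rw [prt_pair]; exact hhy.trans hhz

end

end H1NA
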