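import Pool.Agent.H1.NA.Tb
import Pool.Agent.H1.NA.Lb
import Pool.Agent.H31.NA.GP

set_option autoImplicit false

/-!
# Row Ld (MP_b319aa_NA, block B): refining a basis inside the classes of a labelling

PROOF of spd_lab.  E := Ecl b lam s (Lb: internal, cpt E c x = prt b lam (s c) x =: x_c).  al := q + t h with t > 0, |t h| < r, Rad q r.  x ≠ 0.  If x_c ≠ 0: q x ≤ q x_c (Lb.prt_ge); if q x_c = q x then
 h x ≤ h x_c (Tsl), so al x ≤ al x_c; otherwise q x_c ≥ q x + 4 r (Rad) and al x_c > q x + 3 r > al x.  Existence: Tsl gives a label a0 with prt b lam a0 x ≠ 0, q = q x, h x = h (prt); a0 is a label of b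
 (Lb.prt_out), so a0 = s c for some c (hr); al x = al x_c.
PROOF of refine_lab.  N, s from Lb.lab_enum; E := Ecl b lam s.  r from rad_ex; t > 0 with |t h| < r, |t k| < r (Ta.lsp_small).  al := q + t h, be := q + t k: splittable (Ta.lsp_spl, TQ), split along E
 (spd_lab).  For each c: rs (E c) al, rs (E c) be are splittable (H31NA.rs_sn, GH.lean): common basis f c (H31NA.common, GF.lean, for the space E c), indexed by Fin (finrank (E c)).
 B := hE.collectedBasis f splits al and be (H31NA.coll_spl, GO.lean), B (c, i) = f c i ∈ E c (DirectSum.IsInternal.collectedBasis_coe).  Its index type Σ c, Fin (finrank K (E c)) is finite with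
 finrank K V elements (Module.finrank_eq_card_basis): reindex to e : Bs K V by an equivalence (H31NA.spl_reindex, GC.lean, as in H31NA.sn_of).  Ta.spl_lsp: Lsp e h and Lsp e k.  mu j := s (c of the index
 of e j); b.repr (e j) i ≠ 0 → lam i = mu j by Lb.ecl_mem (e j ∈ E c).
-/

namespace H1NA

open H50NA MeasureTheory Set Filter Topology Metric

noncomputable section

variable {K : Type} [Field K] (F : VF K) {V : Type} [AddCommGroup V] [Module K V]
variable {q : V → ℝ} {A : Type}

theorem spd_lab {b : Bs K V} (hb : Spl F b q) {lam : Fin (Module.finrank K V) → A} {N : ℕ} {s : Fin N → A}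
    (hs : Function.Injective s) (hr : ∀ a, (∃ c, s c = a) ↔ ∃ j, lam j = a) {h : V → ℝ}
    (h3 : Tsl q b lam h) {r t : ℝ} (hR : Rad q r) (ht : 0 < t) (hn : ∀ x, |t * h x| < r) :
    SpD (Ecl b lam s) (fun x => q x + t * h x) := by
  intro x hx
  constructor
  · intro c hc
    rw [ecl_cpt b hs hr c x] at hc ⊢
    change q x + t * h x ≤ q (prt b lam (s c) x) + t * h (prt b lam (s c) x)
    have h1 := prt_ge F hb lam (s c) hx hc
    rcases h1.lt_or_eq with hlt | heq
    · have h2 := hR.2 x _ hx hc hlt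
      have h4 := abs_lt.1 (hn x)
      have h5 := abs_lt.1 (hn (prt b lam (s c) x))
      linarith [h4.1, h4.2, h5.1, h5.2, hR.1]
    · have h2 := (h3 x hx).1 (s c) hc heq.symm
      have h4 := mul_le_mul_of_nonneg_left h2 ht.le
      linarith
  · obtain ⟨a0, hne, hq, hh⟩ := (h3 x hx).2
    obtain ⟨j, hj⟩ := prt_out b lam a0 x hne
    obtain ⟨c, hc⟩ := (hr a0).2 ⟨j, hj⟩
    refine ⟨c, ?_, ?_⟩
    · rw [ecl_cpt b hs hr c x, hc]
      exact hne
    · rw [ecl_cpt b hs hr c x, hc]
      change q x + t * h x = q (prt b lam a0 x) + t * h (prt b lam a0 x)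
      rw [hq, hh]

variable [Module.Finite K V]

theorem refine_lab (hq : SN F q) {b : Bs K V} (hb : Spl F b q) (lam : Fin (Module.finrank K V) → A)
    {h k : V → ℝ} (h1 : TQ F q h) (h2 : TQ F q k) (h3 : Tsl q b lam h) (h4 : Tsl q b lam k) :
    ∃ e : Bs K V, Lsp F q e h ∧ Lsp F q e k ∧
      ∃ mu : Fin (Module.finrank K V) → A, ∀ j i, b.repr (e j) i ≠ 0 → lam i = mu j := by
  obtain ⟨N, s, hs, hr⟩ := lab_enum lam
  obtain ⟨r, hR⟩ := rad_ex F hq
  obtain ⟨b1, hb1⟩ := h1
  obtain ⟨b2, hb2⟩ := h2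
  obtain ⟨t1, ht1, hs1⟩ := lsp_small F hb1 hR.1
  obtain ⟨t2, ht2, hs2⟩ := lsp_small F hb2 hR.1
  obtain ⟨t, htd⟩ : ∃ t, t = min t1 t2 := ⟨_, rfl⟩
  have ht : 0 < t := by rw [htd]; exact lt_min ht1 ht2
  have hn1 := hs1 t ht (by rw [htd]; exact min_le_left _ _)
  have hn2 := hs2 t ht (by rw [htd]; exact min_le_right _ _)
  have ha : SN F (fun x => q x + t * h x) :=
    ⟨by change q 0 + t * h 0 = 0; rw [hq.1, hb1.zero, mul_zero, add_zero],
      b1, lsp_spl F hq hR ht hb1 hn1⟩
  have hbe : SN F (fun x => q x + t * k x) :=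
    ⟨by change q 0 + t * k 0 = 0; rw [hq.1, hb2.zero, mul_zero, add_zero],
      b2, lsp_spl F hq hR ht hb2 hn2⟩
  have hE := ecl_int b hs hr
  have hS1 := spd_lab F hb hs hr h3 hR ht hn1
  have hS2 := spd_lab F hb hs hr h4 hR ht hn2
  have hf : ∀ c, ∃ f : Bs K (Ecl b lam s c),
      Spl F f (rs (Ecl b lam s c) (fun x => q x + t * h x)) ∧
      Spl F f (rs (Ecl b lam s c) (fun x => q x + t * k x)) := fun c =>
    H31NA.common F (H31NA.rs_sn F (Ecl b lam s c) ha) (H31NA.rs_sn F (Ecl b lam s c) hbe)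
  choose f hf1 hf2 using hf
  have hB1 := H31NA.coll_spl F hE f hS1 hf1
  have hB2 := H31NA.coll_spl F hE f hS2 hf2
  let φ : (Σ c, Fin (Module.finrank K (Ecl b lam s c))) ≃ Fin (Module.finrank K V) :=
    Fintype.equivFinOfCardEq (Module.finrank_eq_card_basis (hE.collectedBasis f)).symm
  refine ⟨(hE.collectedBasis f).reindex φ, ?_, ?_, fun j => s (φ.symm j).1, ?_⟩
  · exact spl_lsp F hq hR ht hb1.zero (H31NA.spl_reindex F φ hB1) hn1
  · exact spl_lsp F hq hR ht hb2.zero (H31NA.spl_reindex F φ hB2) hn2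
  · intro j i hi
    rw [Module.Basis.reindex_apply] at hi
    have hmem : ∀ p : Σ c, Fin (Module.finrank K (Ecl b lam s c)),
        (hE.collectedBasis f) p ∈ Ecl b lam s p.1 := by
      rintro ⟨c, l⟩
      rw [DirectSum.IsInternal.collectedBasis_coe]
      exact Submodule.coe_mem _
    exact (ecl_mem b lam s (φ.symm j).1 _).1 (hmem (φ.symm j)) i hi

end

end H1NA
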