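import Pool.Agent.H1.NA.Lc
import Pool.Agent.H1.NA.Ld

set_option autoImplicit false

/-!
# Row Le (MP_b319aa_NA, block B): classification of homogeneous maps into the tangent vectors

PROOF of hom_class.  (1) b := common basis of w 1 and w (-1) (Tb.tq_common); lam j := w 1 (b j).  La.hom_span (a = 1) is the hypothesis of Lc.split_lab with e = b: Tsl q b lam (w z) for all z.
 (2) Ld.refine_lab with h = w I, k = w (-I) (I = Complex.I): e with Lsp e (w I), Lsp e (w (-I)) and mu with (b.repr (e j) i ≠ 0 → lam i = mu j).  Spl F e q from Lsp.spl.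
 (3) if x ≠ 0 and mu j = c whenever e.repr x j ≠ 0, then lam i = c whenever b.repr x i ≠ 0 [b.repr x i = sum over j of e.repr x j * b.repr (e j) i (x = sum of e.repr x j • e j, Module.Basis.sum_repr), a non zero
     term has e.repr x j ≠ 0 and b.repr (e j) i ≠ 0, so lam i = mu j = c].  So w 1 x = c and w (-1) x = -c (La.hom_span for b).  Lc.split_lab with e, a = 1, labels mu: Tsl q e mu (w z).
 (4) nu j := w I (e j): La.hom_span for e, a = I: hypothesis of split_lab with a = I: Tsl q e nu (w z).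
 (5) A j := ⟨mu j, nu j⟩.  Lc.tsl_pair: Tsl q e A (w z).  If x ≠ 0 and A j = c whenever e.repr x j ≠ 0, then mu j = c.re, nu j = c.im there: w 1 x = c.re, w (-1) x = -c.re, w I x = c.im, w (-I) x = -c.im.
     z = 0 + z.re * 1 + z.im * I: La.hom_shift twice: w z x = w 0 x + z.re * c.re + z.im * c.im, w 0 x = 0 (H.zero).
-/

namespace H1NA

open H50NA MeasureTheory Set Filter Topology Metric

noncomputable section

variable {K : Type} [Field K] (F : VF K) {V : Type} [AddCommGroup V] [Module K V] [Module.Finite K V]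
variable {q : V → ℝ} {w : ℂ → V → ℝ} {Nh : ℂ → ℝ}

theorem hom_class (hq : SN F q) (H : Hom F q w Nh) :
    ∃ (e : Bs K V) (A : Fin (Module.finrank K V) → ℂ), Spl F e q ∧
      (∀ (c : ℂ) (x : V), x ≠ 0 → (∀ j, e.repr x j ≠ 0 → A j = c) →
        ∀ z : ℂ, w z x = c.re * z.re + c.im * z.im) ∧ ∀ z : ℂ, Tsl q e A (w z) := by
  obtain ⟨b, hb1, hb2⟩ := tq_common F hq (H.tq 1) (H.tq (-1))
  have hs1 : ∀ z, Tsl q b (fun j => w 1 (b j)) (w z) := fun z =>
    split_lab F hq H hb1.spl (a := 1) (fun c x hx hc => hom_span F hq H hb1 hb2 c hx hc) z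
  obtain ⟨e, he1, he2, mu, hmu⟩ := refine_lab F hq hb1.spl (fun j => w 1 (b j))
    (H.tq Complex.I) (H.tq (-Complex.I)) (hs1 _) (hs1 _)
  have key : ∀ (c : ℝ) (x : V), x ≠ 0 → (∀ j, e.repr x j ≠ 0 → mu j = c) →
      w 1 x = c ∧ w (-1) x = -c := by
    intro c x hx hc
    refine hom_span F hq H hb1 hb2 c hx ?_
    intro i hi
    have h1 : b.repr x i = ∑ j, e.repr x j * b.repr (e j) i := by
      conv_lhs => rw [← e.sum_repr x]
      rw [map_sum, Finsupp.finsetSum_apply]
      refine Finset.sum_congr rfl fun j _ => ?_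
      rw [map_smul]
      rfl
    rw [h1] at hi
    obtain ⟨j, _, hj⟩ := Finset.exists_ne_zero_of_sum_ne_zero hi
    have hj1 : e.repr x j ≠ 0 := left_ne_zero_of_mul hj
    have hj2 : b.repr (e j) i ≠ 0 := right_ne_zero_of_mul hj
    have h2 : w 1 (b i) = mu j := hmu j i hj2
    rw [h2]
    exact hc j hj1
  have key2 : ∀ (c : ℝ) (x : V), x ≠ 0 → (∀ j, e.repr x j ≠ 0 → w Complex.I (e j) = c) →
      w Complex.I x = c ∧ w (-Complex.I) x = -c :=
    fun c x hx hc => hom_span F hq H he1 he2 c hx hc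
  refine ⟨e, fun j => ⟨mu j, w Complex.I (e j)⟩, he1.spl, ?_, ?_⟩
  · intro c x hx hc z
    have h1 := key c.re x hx (fun j hj => by
      have := congrArg Complex.re (hc j hj)
      exact this)
    have h2 := key2 c.im x hx (fun j hj => by
      have := congrArg Complex.im (hc j hj)
      exact this)
    have h3 := hom_shift F hq H h1.1 h1.2 0 z.re
    have h4 := hom_shift F hq H h2.1 h2.2 (0 + (z.re : ℂ) * 1) z.im
    have h5 : 0 + (z.re : ℂ) * 1 + (z.im : ℂ) * Complex.I = z := by
      rw [zero_add, mul_one, Complex.re_add_im]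
    rw [h5, h3, H.zero] at h4
    rw [h4]
    ring
  · intro z
    exact tsl_pair F he1.spl (split_lab F hq H he1.spl (a := 1) key z)
      (split_lab F hq H he1.spl (a := Complex.I) key2 z)

end

end H1NA
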