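import Pool.Agent.H50.NA.Defs
import Pool.Agent.H46.SB.Md

set_option autoImplicit false

/-!
# Row Ub (MP_b319aa_NA, block B): limits along ultrafilters and the subadditive lemma (pure analysis)

PROOFS.
* ult_lim: Icc (-C) C is compact: (U.map f) is an ultrafilter containing Icc (-C) C, so IsCompact.ultrafilter_le_nhds gives c in Icc (-C) C with U.map f ≤ 𝓝 c.
* ult_unif (U any filter): given e > 0 choose d > 0 with (|L| + 1) * 2 d... e.g. d := e / (4 (|L| + 1)).  C is compact: finitely many points s of C (a finite set S ⊆ C) with C covered by the balls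
  ball s d (IsCompact.finite_cover_balls or elim_finite_subcover; C may be empty).  The limit g satisfies |g x - g y| ≤ L dist x y on C if U is NeBot (le_of_tendsto); if U = ⊥ everything is trivial
  (Metric.tendstoUniformlyOn_iff with ⊥: eventually in ⊥ is true).  For almost all n: |f n s - g s| < e/4 for all s in S (finite intersection: Finset.eventually_all / (eventually_all_finset S).2).
  For x in C take s in S with dist x s < d: |f n x - g x| ≤ |f n x - f n s| + |f n s - g s| + |g s - g x| ≤ 2 |L| d + e/4 < e.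
* subh_lim: H46SB.SubH.lim (Pool/Agent/H46/SB/Ma.lean) with O = univ; hs: for closedBall x R take O' from the hypothesis; hu: ult_unif on closedBall x R.
* fek: |N x - N y| ≤ N (x - y): N x ≤ N (x - y) + N y and N y ≤ N (y - x) + N x, N (y - x) = N (x - y).  N 0 ≤ L * 0 so N 0 = 0.
  Fix a.  The sequence g n := N (n * a) (n : ℕ) is subadditive (Subadditive, N ((m + n) a) ≤ N (m a) + N (n a)) and g n / n ≥ 0 is bounded below, so g n / n → M a := Subadditive.lim
  (Subadditive.tendsto_lim).  Claim: for c > 0:  N (((n+1) c) a) / (n+1) → c M a.  Let k n := ⌊(n+1) c⌋₊ (natural floor), |(n+1) c - k n| ≤ 1, so |N ((n+1) c a) - N (k n a)| ≤ N (((n+1)c - k n) a) ≤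
  max L 0 ‖a‖ (L may be negative only if everything is 0; use N b ≤ |L| ‖b‖), divided by (n+1) it tends to 0.  k n → ∞ and k n/(n+1) → c (|k n/(n+1) - c| ≤ 1/(n+1)), so
  N (k n a)/(n+1) = (N (k n a)/ k n) (k n/(n+1)) → M a c (the case k n = 0 only for small n).  With c = 1 this is the first statement for a, and for general c > 0 the first statement for c a gives
  M (c a) = c M a by uniqueness of limits.  c = 0: N ((n+1) 0) = 0 so M 0 = 0.  c < 0: N (-x) = N x, so M (-x) = M x, M (c a) = M (-(|c| a)) = |c| M a.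
-/

namespace H1NA

open H50NA MeasureTheory Set Filter Topology Metric

noncomputable section

theorem ult_lim {ι : Type} (U : Ultrafilter ι) {f : ι → ℝ} {C : ℝ}
    (h : ∀ᶠ n in (U : Filter ι), |f n| ≤ C) :
    ∃ c : ℝ, |c| ≤ C ∧ Tendsto f (U : Filter ι) (𝓝 c) := by
  have h1 : ((U.map f : Ultrafilter ℝ) : Filter ℝ) ≤ 𝓟 (Icc (-C) C) := by
    rw [le_principal_iff, Ultrafilter.coe_map, Filter.mem_map]
    filter_upwards [h] with n hn
    exact abs_le.1 hn
  obtain ⟨c, hc, h2⟩ := isCompact_Icc.ultrafilter_le_nhds (U.map f) h1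
  exact ⟨c, abs_le.2 hc, h2⟩

theorem ult_unif {ι : Type} (U : Filter ι) {f : ι → ℂ → ℝ} {g : ℂ → ℝ} {L : ℝ} {C : Set ℂ}
    (hC : IsCompact C) (hL : ∀ᶠ n in U, ∀ x ∈ C, ∀ y ∈ C, |f n x - f n y| ≤ L * dist x y)
    (h : ∀ x ∈ C, Tendsto (fun n => f n x) U (𝓝 (g x))) : TendstoUniformlyOn f g U C := by
  rw [Metric.tendstoUniformlyOn_iff]
  intro e he
  rcases U.eq_or_neBot with hU | hU
  · rw [hU]
    exact Filter.eventually_bot
  set d : ℝ := e / (4 * (|L| + 1)) with hd
  have hL0 : 0 ≤ |L| := abs_nonneg L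
  have hd0 : 0 < d := by positivity
  have hLd : |L| * d < e / 4 := by
    have h1 : (|L| + 1) * d = e / 4 := by
      rw [hd]
      field_simp
    nlinarith
  obtain ⟨t, htC, htf, hcov⟩ := hC.finite_cover_balls hd0
  have hg : ∀ x ∈ C, ∀ y ∈ C, |g x - g y| ≤ |L| * dist x y := by
    intro x hx y hy
    refine le_of_tendsto ((h x hx).sub (h y hy)).abs ?_
    filter_upwards [hL] with n hn
    exact (hn x hx y hy).trans (mul_le_mul_of_nonneg_right (le_abs_self L) dist_nonneg)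
  have hfin : ∀ᶠ n in U, ∀ s ∈ t, |f n s - g s| < e / 4 := by
    rw [Filter.eventually_all_finite htf]
    intro s hs
    have h1 := (Metric.tendsto_nhds.1 (h s (htC hs))) (e / 4) (by positivity)
    filter_upwards [h1] with n hn
    rwa [Real.dist_eq] at hn
  filter_upwards [hL, hfin] with n hn hn2 x hx
  obtain ⟨s, hs, hxs⟩ := mem_iUnion₂.1 (hcov hx)
  have hxs' : dist x s < d := hxs
  have h1 : |f n x - f n s| ≤ |L| * d := by
    refine (hn x hx s (htC hs)).trans ?_
    refine (mul_le_mul_of_nonneg_right (le_abs_self L) dist_nonneg).trans ?_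
    exact mul_le_mul_of_nonneg_left hxs'.le hL0
  have h2 : |g s - g x| ≤ |L| * d := by
    refine (hg s (htC hs) x hx).trans ?_
    rw [dist_comm]
    exact mul_le_mul_of_nonneg_left hxs'.le hL0
  have h3 := hn2 s hs
  rw [dist_comm, Real.dist_eq]
  have h4 : f n x - g x = (f n x - f n s) + (f n s - g s) + (g s - g x) := by ring
  rw [h4]
  have h5 := abs_add_le ((f n x - f n s) + (f n s - g s)) (g s - g x)
  have h6 := abs_add_le (f n x - f n s) (f n s - g s)
  linarith

theorem subh_lim {ι : Type} (U : Filter ι) [U.NeBot] {f : ι → ℂ → ℝ} {g : ℂ → ℝ} {L : ℝ}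
    (hs : ∀ (x : ℂ) (R : ℝ), 0 < R → ∀ᶠ n in U, ∃ O' : Set ℂ, closedBall x R ⊆ O' ∧ SubH (f n) O')
    (hL : ∀ (x : ℂ) (R : ℝ), 0 < R → ∀ᶠ n in U, ∀ y ∈ closedBall x R, ∀ z ∈ closedBall x R,
      |f n y - f n z| ≤ L * dist y z)
    (h : ∀ x, Tendsto (fun n => f n x) U (𝓝 (g x))) : SubH g univ := by
  refine H46SB.SubH.lim isOpen_univ (fun x R hR _ => hs x R hR) (fun x R hR _ => ?_)
  exact ult_unif U (isCompact_closedBall x R) (hL x R hR) (fun y _ => h y)

theorem fek {N : ℂ → ℝ} {L : ℝ} (h0 : ∀ a, 0 ≤ N a) (hs : ∀ a b, N (a + b) ≤ N a + N b)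
    (hn : ∀ a, N (-a) = N a) (hL : ∀ a, N a ≤ L * ‖a‖) : ∃ M : ℂ → ℝ,
      (∀ a, Tendsto (fun n : ℕ => N ((((n : ℝ) + 1 : ℝ) : ℂ) * a) / ((n : ℝ) + 1)) atTop (𝓝 (M a))) ∧
      ∀ (c : ℝ) (a : ℂ), M ((c : ℂ) * a) = |c| * M a := by
  have hN0 : N 0 = 0 := le_antisymm (by simpa using hL 0) (h0 0)
  have habs : ∀ x y, |N x - N y| ≤ N (x - y) := by
    intro x y
    rw [abs_le]
    constructor
    · have h1 := hs (y - x) x
      rw [sub_add_cancel] at h1
      have h2 := hn (x - y)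
      rw [neg_sub] at h2
      linarith
    · have h1 := hs (x - y) y
      rw [sub_add_cancel] at h1
      linarith
  have hL' : ∀ a, N a ≤ |L| * ‖a‖ := fun a =>
    (hL a).trans (mul_le_mul_of_nonneg_right (le_abs_self L) (norm_nonneg a))
  have hex : ∀ a : ℂ, ∃ m : ℝ, Tendsto (fun n : ℕ => N ((n : ℂ) * a) / (n : ℝ)) atTop (𝓝 m) := by
    intro a
    have hsub : Subadditive (fun n : ℕ => N ((n : ℂ) * a)) := by
      intro m n
      have h1 := hs ((m : ℂ) * a) ((n : ℂ) * a)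
      rw [← add_mul] at h1
      show N (((m + n : ℕ) : ℂ) * a) ≤ _
      push_cast
      exact h1
    refine ⟨hsub.lim, hsub.tendsto_lim ⟨0, ?_⟩⟩
    rintro _ ⟨n, rfl⟩
    exact div_nonneg (h0 _) (Nat.cast_nonneg n)
  choose M hM using hex
  have hpos : ∀ (c : ℝ) (a : ℂ), 0 < c → M ((c : ℂ) * a) = c * M a := by
    intro c a hc
    refine tendsto_nhds_unique (hM ((c : ℂ) * a)) ?_
    have hk1 : Tendsto (fun n : ℕ => ⌊c * (n : ℝ)⌋₊) atTop atTop :=
      tendsto_nat_floor_atTop.comp (tendsto_natCast_atTop_atTop.const_mul_atTop hc)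
    have hk2 : Tendsto (fun n : ℕ => ((⌊c * (n : ℝ)⌋₊ : ℕ) : ℝ) / (n : ℝ)) atTop (𝓝 c) :=
      (tendsto_nat_floor_mul_div_atTop hc.le).comp tendsto_natCast_atTop_atTop
    have h1 : Tendsto (fun n : ℕ => N (((⌊c * (n : ℝ)⌋₊ : ℕ) : ℂ) * a) / (n : ℝ)) atTop (𝓝 (c * M a)) := by
      have h2 := ((hM a).comp hk1).mul hk2
      rw [mul_comm (M a) c] at h2
      refine h2.congr fun n => ?_
      show N (((⌊c * (n : ℝ)⌋₊ : ℕ) : ℂ) * a) / ((⌊c * (n : ℝ)⌋₊ : ℕ) : ℝ) *
        (((⌊c * (n : ℝ)⌋₊ : ℕ) : ℝ) / (n : ℝ)) = _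
      generalize ⌊c * (n : ℝ)⌋₊ = k
      rcases Nat.eq_zero_or_pos k with hk | hk
      · rw [hk, Nat.cast_zero, zero_mul, hN0]
        simp
      · have hk0 : (k : ℝ) ≠ 0 := by exact_mod_cast hk.ne'
        rw [div_mul_div_comm, mul_comm (k : ℝ) (n : ℝ), mul_div_mul_right _ _ hk0]
    have h3 : Tendsto (fun n : ℕ => N ((n : ℂ) * ((c : ℂ) * a)) / (n : ℝ) -
        N (((⌊c * (n : ℝ)⌋₊ : ℕ) : ℂ) * a) / (n : ℝ)) atTop (𝓝 0) := by
      refine squeeze_zero_norm (a := fun n : ℕ => (|L| * ‖a‖) / (n : ℝ)) (fun n => ?_)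
        (tendsto_const_div_atTop_nhds_zero_nat _)
      rw [← sub_div, norm_div, Real.norm_eq_abs, Real.norm_of_nonneg (Nat.cast_nonneg n)]
      refine div_le_div_of_nonneg_right ?_ (Nat.cast_nonneg n)
      refine (habs _ _).trans ((hL' _).trans (mul_le_mul_of_nonneg_left ?_ (abs_nonneg L)))
      have h4 : (n : ℂ) * ((c : ℂ) * a) - ((⌊c * (n : ℝ)⌋₊ : ℕ) : ℂ) * a =
          (((c * (n : ℝ) - ((⌊c * (n : ℝ)⌋₊ : ℕ) : ℝ)) : ℝ) : ℂ) * a := by
        push_cast
        ring
      rw [h4, norm_mul, Complex.norm_real, Real.norm_eq_abs]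
      refine mul_le_of_le_one_left (norm_nonneg a) ?_
      have h5 : 0 ≤ c * (n : ℝ) := by positivity
      have h6 := Nat.floor_le h5
      have h7 := Nat.lt_floor_add_one (c * (n : ℝ))
      rw [abs_le]
      constructor <;> linarith
    have h8 := h3.add h1
    rw [zero_add] at h8
    refine h8.congr fun n => ?_
    ring
  have hM0 : M 0 = 0 := by
    refine tendsto_nhds_unique (hM 0) ?_
    simp only [mul_zero, hN0, zero_div]
    exact tendsto_const_nhds
  have hMn : ∀ a, M (-a) = M a := by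
    intro a
    refine tendsto_nhds_unique (hM (-a)) ?_
    refine (hM a).congr fun n => ?_
    rw [mul_neg, hn]
  refine ⟨M, fun a => ?_, fun c a => ?_⟩
  · have h1 := (hM a).comp (tendsto_add_atTop_nat 1)
    refine h1.congr fun n => ?_
    show N (((n + 1 : ℕ) : ℂ) * a) / ((n + 1 : ℕ) : ℝ) = _
    push_cast
    rfl
  · rcases lt_trichotomy c 0 with hc | hc | hc
    · have h1 := hpos (-c) a (neg_pos.2 hc)
      rw [abs_of_neg hc, ← h1, ← hMn]
      congr 1
      push_cast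
      ring
    · rw [hc, abs_zero, zero_mul, Complex.ofReal_zero, zero_mul, hM0]
    · rw [abs_of_pos hc, hpos c a hc]

end

end H1NA
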