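import Pool.Agent.H1.NA.Tb
import Pool.Agent.H1.NA.Ub

set_option autoImplicit false

/-!
# Row Ud (MP_b319aa_NA, block B): distances in the blow-up are translation invariant (Liouville)

X := Nm F V with H50NA.npcN F : Npc (Nm F V) (gmN F).  l n := 1/(n+1).
PROOF of v_const.  Fix a.  D n z := dist (u (x0 + l n z)) (u (x0 + l n (z + a))) * (n+1), F n z := D n z ^ 2.  Let O n := {z | x0 + l n z ∈ O ∧ x0 + l n (z + a) ∈ O} (open: preimages of O under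
 continuous maps).
 (1) SubH (F n) (O n): f z := u (x0 + l n z) is LM on {z | x0 + l n z ∈ O} (H50NA.lm_scale with c = l n > 0), z ↦ f (z + a) is LM on {z | z + a ∈ that set} (lm_trans), restrict both to O n
     (lm_mono); H50NA.m2 gives SubH of dist ^ 2 on O n; multiply by (n+1)^2 (H46SB.SubH.smul, SubH.congr).
 (2) given x and R > 0: for n large closedBall x R ⊆ O n: for z in it |l n z| ≤ l n (‖x‖ + R) and |l n (z + a)| ≤ l n (‖x‖ + R + ‖a‖) ≤ R0 (l n → 0), closedBall x0 R0 ⊆ O.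
 (3) for such n and z, z' in closedBall x R: D n z ≤ L ‖a‖ (Lipschitz bound, dist of the two points is l n ‖a‖) and |D n z - D n z'| ≤ 2 L dist z z' (quadrilateral inequality
     |dist p q - dist p' q'| ≤ dist p p' + dist q q'), so |F n z - F n z'| = |D - D'| (D + D') ≤ 4 L^2 ‖a‖ dist z z'.
 (4) F n z → dT (v z) (v (z+a)) ^ 2 =: G z along the hyperfilter (hypothesis hv with z' = z + a, Tendsto.pow).  Ub.subh_lim (U = hyperfilter ℕ, eventually atTop implies eventually along the hyperfilter: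
     hyperfilter_le_cofinite / Nat.hyperfilter_le_atTop): SubH G univ.  G ≤ (L ‖a‖)^2 (le_of_tendsto).  H46SB.SubH.liouville (Pool/Agent/H46/SB/Md.lean): G z = G 0.  dT ≥ 0 (Tb.dT_nn): take square roots;
     0 + a = a.
-/

namespace H1NA

open H50NA MeasureTheory Set Filter Topology Metric

noncomputable section

variable {K : Type} [Field K] (F : VF K) {V : Type} [AddCommGroup V] [Module K V] [Module.Finite K V]

theorem Ud_gen {X : Type} [MetricSpace X] {gm : X → X → ℝ → X} (hX : Npc X gm) {u : ℂ → X}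
    {O : Set ℂ} (h : LM u O) {x0 : ℂ} {R0 L : ℝ} (hR0 : 0 < R0) (hL0 : 0 ≤ L)
    (hsub : closedBall x0 R0 ⊆ O)
    (hL : ∀ x ∈ closedBall x0 R0, ∀ y ∈ closedBall x0 R0, dist (u x) (u y) ≤ L * dist x y)
    {d : ℂ → ℂ → ℝ}
    (hv : ∀ z z', Tendsto (fun n : ℕ => dist (u (x0 + ((1 / ((n : ℝ) + 1) : ℝ) : ℂ) * z))
        (u (x0 + ((1 / ((n : ℝ) + 1) : ℝ) : ℂ) * z')) * ((n : ℝ) + 1)) (hyperfilter ℕ : Filter ℕ)
        (𝓝 (d z z'))) (z a : ℂ) : d z (z + a) ^ 2 = d 0 (0 + a) ^ 2 := by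
  have hl : ∀ n : ℕ, 0 < 1 / ((n : ℝ) + 1) := fun n => Nat.one_div_pos_of_nat
  have hln : ∀ n : ℕ, 1 / ((n : ℝ) + 1) * ((n : ℝ) + 1) = 1 := fun n => by
    have : (0:ℝ) < (n : ℝ) + 1 := Nat.cast_add_one_pos n
    field_simp
  set D : ℕ → ℂ → ℝ := fun n z => dist (u (x0 + ((1 / ((n : ℝ) + 1) : ℝ) : ℂ) * z))
        (u (x0 + ((1 / ((n : ℝ) + 1) : ℝ) : ℂ) * (z + a))) * ((n : ℝ) + 1) with hD
  have hD0 : ∀ n z, 0 ≤ D n z := fun n z =>
    mul_nonneg dist_nonneg (Nat.cast_add_one_pos n).le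
  have hball : ∀ (x : ℂ) (R : ℝ), 0 < R → ∀ᶠ n : ℕ in (hyperfilter ℕ : Filter ℕ),
      ∀ y ∈ closedBall x R, x0 + ((1 / ((n : ℝ) + 1) : ℝ) : ℂ) * y ∈ closedBall x0 R0 ∧
        x0 + ((1 / ((n : ℝ) + 1) : ℝ) : ℂ) * (y + a) ∈ closedBall x0 R0 := by
    intro x R hR
    have h1 : Tendsto (fun n : ℕ => (1 / ((n : ℝ) + 1)) * (‖x‖ + R + ‖a‖)) atTop (𝓝 (0 * (‖x‖ + R + ‖a‖))) :=
      tendsto_one_div_add_atTop_nhds_zero_nat.mul_const _
    rw [zero_mul] at h1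
    have h2 : ∀ᶠ n : ℕ in atTop, (1 / ((n : ℝ) + 1)) * (‖x‖ + R + ‖a‖) < R0 :=
      h1.eventually (eventually_lt_nhds hR0)
    refine (h2.filter_mono Nat.hyperfilter_le_atTop).mono ?_
    intro n hn y hy
    have hy1 : ‖y‖ ≤ ‖x‖ + R := by
      have : ‖y - x‖ ≤ R := by rwa [mem_closedBall, dist_eq_norm] at hy
      calc ‖y‖ = ‖x + (y - x)‖ := by rw [add_sub_cancel]
        _ ≤ ‖x‖ + ‖y - x‖ := norm_add_le _ _
        _ ≤ ‖x‖ + R := by linarith
    have key : ∀ w : ℂ, ‖w‖ ≤ ‖x‖ + R + ‖a‖ →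
        x0 + ((1 / ((n : ℝ) + 1) : ℝ) : ℂ) * w ∈ closedBall x0 R0 := by
      intro w hw
      rw [mem_closedBall, dist_eq_norm, add_sub_cancel_left, norm_mul, Complex.norm_real,
        Real.norm_eq_abs, abs_of_pos (hl n)]
      exact (mul_le_mul_of_nonneg_left hw (hl n).le).trans hn.le
    refine ⟨key y (hy1.trans (le_add_of_nonneg_right (norm_nonneg a))), key (y + a) ?_⟩
    exact (norm_add_le _ _).trans (add_le_add_left hy1 _)
  have hdist : ∀ (n : ℕ) (p q : ℂ), dist (x0 + ((1 / ((n : ℝ) + 1) : ℝ) : ℂ) * p)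
      (x0 + ((1 / ((n : ℝ) + 1) : ℝ) : ℂ) * q) = 1 / ((n : ℝ) + 1) * dist p q := by
    intro n p q
    rw [dist_eq_norm, dist_eq_norm, add_sub_add_left_eq_sub, ← mul_sub, norm_mul,
      Complex.norm_real, Real.norm_eq_abs, abs_of_pos (hl n)]
  have hDle : ∀ (n : ℕ) (y : ℂ), x0 + ((1 / ((n : ℝ) + 1) : ℝ) : ℂ) * y ∈ closedBall x0 R0 →
      x0 + ((1 / ((n : ℝ) + 1) : ℝ) : ℂ) * (y + a) ∈ closedBall x0 R0 → D n y ≤ L * ‖a‖ := by
    intro n y h1 h2
    have h3 := hL _ h1 _ h2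
    rw [hdist] at h3
    have h4 : dist y (y + a) = ‖a‖ := by rw [dist_eq_norm, sub_add_cancel_left, norm_neg]
    rw [h4] at h3
    calc D n y ≤ L * (1 / ((n : ℝ) + 1) * ‖a‖) * ((n : ℝ) + 1) :=
          mul_le_mul_of_nonneg_right h3 (Nat.cast_add_one_pos n).le
      _ = L * ‖a‖ * (1 / ((n : ℝ) + 1) * ((n : ℝ) + 1)) := by ring
      _ = L * ‖a‖ := by rw [hln, mul_one]
  have hsubh : SubH (fun z => d z (z + a) ^ 2) univ := by
    refine subh_lim (hyperfilter ℕ : Filter ℕ) (f := fun n z => D n z ^ 2)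
      (L := 4 * L ^ 2 * ‖a‖) ?_ ?_ ?_
    · intro x R hR
      refine (hball x R hR).mono ?_
      intro n hn
      refine ⟨{z | x0 + ((1 / ((n : ℝ) + 1) : ℝ) : ℂ) * z ∈ O ∧
        x0 + ((1 / ((n : ℝ) + 1) : ℝ) : ℂ) * (z + a) ∈ O}, ?_, ?_⟩
      · intro y hy
        exact ⟨hsub (hn y hy).1, hsub (hn y hy).2⟩
      · have c1 : Continuous fun z : ℂ => x0 + ((1 / ((n : ℝ) + 1) : ℝ) : ℂ) * z := by fun_prop
        have c2 : Continuous fun z : ℂ => x0 + ((1 / ((n : ℝ) + 1) : ℝ) : ℂ) * (z + a) := by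
          fun_prop
        have hopen : IsOpen {z | x0 + ((1 / ((n : ℝ) + 1) : ℝ) : ℂ) * z ∈ O ∧
            x0 + ((1 / ((n : ℝ) + 1) : ℝ) : ℂ) * (z + a) ∈ O} :=
          (h.opn.preimage c1).inter (h.opn.preimage c2)
        have h1 := lm_scale h x0 (hl n)
        have h2 := lm_trans h1 a
        have h3 := m2 hX (lm_mono h1 hopen fun z hz => hz.1) (lm_mono h2 hopen fun z hz => hz.2)
        refine H46SB.SubH.congr (H46SB.SubH.smul h3 (sq_nonneg ((n : ℝ) + 1))) ?_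
        intro y _
        show (dist (u (x0 + ((1 / ((n : ℝ) + 1) : ℝ) : ℂ) * y))
          (u (x0 + ((1 / ((n : ℝ) + 1) : ℝ) : ℂ) * (y + a))) * ((n : ℝ) + 1)) ^ 2 =
          ((n : ℝ) + 1) ^ 2 * dist (u (x0 + ((1 / ((n : ℝ) + 1) : ℝ) : ℂ) * y))
          (u (x0 + ((1 / ((n : ℝ) + 1) : ℝ) : ℂ) * (y + a))) ^ 2
        ring
    · intro x R hR
      refine (hball x R hR).mono ?_
      intro n hn y hy w hw
      obtain ⟨y1, y2⟩ := hn y hy
      obtain ⟨w1, w2⟩ := hn w hw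
      have b1 := hDle n y y1 y2
      have b2 := hDle n w w1 w2
      have b3 : |D n y - D n w| ≤ 2 * L * dist y w := by
        have e1 := dist_dist_dist_le (u (x0 + ((1 / ((n : ℝ) + 1) : ℝ) : ℂ) * y))
          (u (x0 + ((1 / ((n : ℝ) + 1) : ℝ) : ℂ) * (y + a)))
          (u (x0 + ((1 / ((n : ℝ) + 1) : ℝ) : ℂ) * w))
          (u (x0 + ((1 / ((n : ℝ) + 1) : ℝ) : ℂ) * (w + a)))
        have e2 := hL _ y1 _ w1
        have e3 := hL _ y2 _ w2
        rw [hdist] at e2 e3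
        rw [dist_add_right] at e3
        rw [Real.dist_eq] at e1
        have e4 := e1.trans (add_le_add e2 e3)
        show |_ * ((n : ℝ) + 1) - _ * ((n : ℝ) + 1)| ≤ _
        rw [← sub_mul, abs_mul, abs_of_pos (Nat.cast_add_one_pos n : (0:ℝ) < (n : ℝ) + 1)]
        calc _ ≤ (L * (1 / ((n : ℝ) + 1) * dist y w) + L * (1 / ((n : ℝ) + 1) * dist y w)) *
              ((n : ℝ) + 1) := mul_le_mul_of_nonneg_right e4 (Nat.cast_add_one_pos n).le
          _ = 2 * L * dist y w * (1 / ((n : ℝ) + 1) * ((n : ℝ) + 1)) := by ring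
          _ = 2 * L * dist y w := by rw [hln, mul_one]
      have b4 : |D n y + D n w| ≤ 2 * (L * ‖a‖) := by
        rw [abs_of_nonneg (add_nonneg (hD0 n y) (hD0 n w))]
        linarith
      show |D n y ^ 2 - D n w ^ 2| ≤ _
      have e : D n y ^ 2 - D n w ^ 2 = (D n y - D n w) * (D n y + D n w) := by ring
      rw [e, abs_mul]
      calc |D n y - D n w| * |D n y + D n w| ≤ (2 * L * dist y w) * (2 * (L * ‖a‖)) :=
            mul_le_mul b3 b4 (abs_nonneg _) (by positivity)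
        _ = 4 * L ^ 2 * ‖a‖ * dist y w := by ring
    · intro x
      exact (hv x (x + a)).pow 2
  have hbd : ∀ y, d y (y + a) ^ 2 ≤ (L * ‖a‖) ^ 2 := by
    intro y
    refine le_of_tendsto ((hv y (y + a)).pow 2) ((hball y 1 one_pos).mono ?_)
    intro n hn
    obtain ⟨y1, y2⟩ := hn y (mem_closedBall_self zero_le_one)
    exact pow_le_pow_left₀ (hD0 n y) (hDle n y y1 y2) 2
  exact H46SB.SubH.liouville hsubh hbd z 0

theorem v_const {u : ℂ → Nm F V} {O : Set ℂ} (h : LM u O) {x0 : ℂ} {R0 L : ℝ} (hR0 : 0 < R0) (hL0 : 0 ≤ L)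
    (hsub : closedBall x0 R0 ⊆ O)
    (hL : ∀ x ∈ closedBall x0 R0, ∀ y ∈ closedBall x0 R0, dist (u x) (u y) ≤ L * dist x y)
    {v : ℂ → V → ℝ}
    (hv : ∀ z z', Tendsto (fun n : ℕ => dist (u (x0 + ((1 / ((n : ℝ) + 1) : ℝ) : ℂ) * z))
        (u (x0 + ((1 / ((n : ℝ) + 1) : ℝ) : ℂ) * z')) * ((n : ℝ) + 1)) (hyperfilter ℕ : Filter ℕ)
        (𝓝 (dT F (u x0).1 (v z) (v z')))) (z a : ℂ) :
    dT F (u x0).1 (v z) (v (z + a)) = dT F (u x0).1 (v 0) (v a) := by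
  have h1 := Ud_gen (npcN F) h hR0 hL0 hsub hL
    (d := fun z z' => dT F (u x0).1 (v z) (v z')) hv z a
  have h2 : dT F (u x0).1 (v z) (v (z + a)) ^ 2 = dT F (u x0).1 (v 0) (v (0 + a)) ^ 2 := h1
  rw [zero_add] at h2
  exact (pow_left_inj₀ (dT_nn F _ _ _) (dT_nn F _ _ _) two_ne_zero).1 h2

end

end H1NA
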