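import Pool.Agent.H1.NA.Uc
import Pool.Agent.H1.NA.Ud

set_option autoImplicit false

/-!
# Row Ue (MP_b319aa_NA, block B): blow-up data; blow-down to homogeneous data

PROOF of vdat_ex.  v from Uc.v_ex, Nf a := dT (v 0) (v a).  dn: Ud.v_const.  nl: dT (v 0) (v a) ≤ L dist 0 a = L ‖a‖.  app: Uc.vdat_app.
PROOF of wdat_ex.  q := (u x0).1 (splittable, (u x0).2).  Properties of Nf: Nf ≥ 0 (dn, Tb.dT_nn); Nf (a + b) = dT (v 0) (v (0 + (a+b))) ≤ dT (v 0) (v a) + dT (v a) (v (a + b)) = Nf a + Nf b (Tb.dT_tri);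
 Nf (-a) = dT (v a) (v (a + -a)) = dT (v a) (v 0) = dT (v 0) (v a) = Nf a (dT_comm).  Ub.fek gives M =: Nh.
 h n z := fun x => v ((n+1) z) x * (1/(n+1)) written as (1/(n+1)) * v .. x; in TQ (Tb.tq_scale); |h n z x| ≤ dT 0 (h n z) = (1/(n+1)) Nf ((n+1) z) ≤ L ‖z‖ (Tb.abs_le_dT with the zero vector v 0, Tb.dT_scale,
 nl).  U := hyperfilter ℕ: Ub.ult_lim: w z x := limit of h n z x along U.  Tc.tq_lim1: w z in TQ, dT (h n z) (w z) → 0.  Tc.tq_lim: dT (h n z) (h n z') → dT (w z) (w z'); and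
 dT (h n z) (h n z') = (1/(n+1)) dT (v ((n+1)z)) (v ((n+1)z')) = (1/(n+1)) Nf ((n+1)(z' - z)) → Nh (z' - z) (atTop, so along the hyperfilter): dT (w z) (w z') = Nh (z' - z) by uniqueness of limits.
 zero: v ((n+1) 0) = v 0 = 0.  nl: limit of Nf ((n+1) a)/(n+1) ≤ L ‖a‖.
 app: given S, ep, rho: for z in S: dT (h n z) (w z) < ep/2 for U-almost all n; take one n good for all z in S (eventually_all_finset); R := n + 1 ≥ 1.  hv.app for S' := S.image (R * ·), ep/2, rho/R gives l' with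
 0 < l' < rho/R and |u (x0 + l' (R z)) x - (q x + l' v (R z) x)| ≤ (ep/2) l'.  l := l' R < rho; l' (R z) = l z; l' v (R z) x = l h n z x; |l h n z x - l w z x| ≤ l ep/2 (Tb.abs_le_dT);
 total ≤ (ep/2) l' + (ep/2) l ≤ ep l since l' ≤ l.
PROOF of hom_of: collect the fields.
-/

namespace H1NA

open H50NA MeasureTheory Set Filter Topology Metric

noncomputable section

variable {K : Type} [Field K] (F : VF K) {V : Type} [AddCommGroup V] [Module K V] [Module.Finite K V]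

theorem vdat_ex (hR : Rf F) {u : ℂ → Nm F V} {O : Set ℂ} (h : LM u O) {x0 : ℂ} {R0 L : ℝ} (hR0 : 0 < R0)
    (hL0 : 0 ≤ L) (hsub : closedBall x0 R0 ⊆ O)
    (hL : ∀ x ∈ closedBall x0 R0, ∀ y ∈ closedBall x0 R0, dist (u x) (u y) ≤ L * dist x y) :
    ∃ (v : ℂ → V → ℝ) (Nf : ℂ → ℝ), Vdat F u x0 L v Nf := by
  obtain ⟨v, h1, h2, h3, h4, h5⟩ := v_ex F hR hR0 hL0 hL
  refine ⟨v, fun a => dT F (u x0).1 (v 0) (v a), ⟨h1, h2, ?_, ?_, ?_⟩⟩
  · intro z a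
    exact v_const F h hR0 hL0 hsub hL h5 z a
  · intro a
    have := h3 0 a
    rwa [dist_zero_left] at this
  · intro S ep hep rho hrho
    exact vdat_app F hR0 hL0 hL h1 h4 S hep hrho

theorem wdat_ex (hR : Rf F) {u : ℂ → Nm F V} {x0 : ℂ} {L : ℝ} {v : ℂ → V → ℝ} {Nf : ℂ → ℝ}
    (hv : Vdat F u x0 L v Nf) : ∃ (w : ℂ → V → ℝ) (Nh : ℂ → ℝ), Vdat F u x0 L w Nh ∧
      ∀ (c : ℝ) (a : ℂ), Nh ((c : ℂ) * a) = |c| * Nh a := by
  obtain ⟨q, hqd⟩ : ∃ q : V → ℝ, q = (u x0).1 := ⟨_, rfl⟩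
  have hq : SN F q := by
    rw [hqd]
    exact (u x0).2
  have hvtq : ∀ z, TQ F q (v z) := by
    rw [hqd]
    exact hv.tq
  have hvdn : ∀ z a, dT F q (v z) (v (z + a)) = Nf a := by
    rw [hqd]
    exact hv.dn
  have hd0 : ∀ a, dT F q (v 0) (v a) = Nf a := by
    intro a
    have := hvdn 0 a
    rwa [zero_add] at this
  have hn0 : ∀ a, 0 ≤ Nf a := by
    intro a
    rw [← hd0 a]
    exact dT_nn F q _ _
  have hsub : ∀ a b, Nf (a + b) ≤ Nf a + Nf b := by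
    intro a b
    rw [← hd0 (a + b), ← hd0 a, ← hvdn a b]
    exact dT_tri F hq (hvtq _) (hvtq _) (hvtq _)
  have hneg : ∀ a, Nf (-a) = Nf a := by
    intro a
    rw [← hvdn a (-a), add_neg_cancel, dT_comm F hq (hvtq _) (hvtq _), hd0 a]
  obtain ⟨M, hM1, hM2⟩ := fek hn0 hsub hneg hv.nl
  have hpos : ∀ n : ℕ, (0 : ℝ) < (n : ℝ) + 1 := fun n => by positivity
  obtain ⟨hh, hhd⟩ : ∃ hh : ℕ → ℂ → V → ℝ, ∀ n z x,
      hh n z x = (1 / ((n : ℝ) + 1)) * v ((((n : ℝ) + 1 : ℝ) : ℂ) * z) x :=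
    ⟨fun n z x => (1 / ((n : ℝ) + 1)) * v ((((n : ℝ) + 1 : ℝ) : ℂ) * z) x, fun _ _ _ => rfl⟩
  have hhf : ∀ n z, hh n z = fun x => (1 / ((n : ℝ) + 1)) * v ((((n : ℝ) + 1 : ℝ) : ℂ) * z) x :=
    fun n z => funext fun x => hhd n z x
  have htq : ∀ n z, TQ F q (hh n z) := by
    intro n z
    rw [hhf]
    exact tq_scale F (hvtq _) (one_div_pos.2 (hpos n)).le
  have hdist : ∀ n z z', dT F q (hh n z) (hh n z') =
      Nf ((((n : ℝ) + 1 : ℝ) : ℂ) * (z' - z)) / ((n : ℝ) + 1) := by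
    intro n z z'
    rw [hhf, hhf, dT_scale F hq (hvtq _) (hvtq _) (one_div_pos.2 (hpos n)).le]
    have e : (((n : ℝ) + 1 : ℝ) : ℂ) * z' =
        (((n : ℝ) + 1 : ℝ) : ℂ) * z + (((n : ℝ) + 1 : ℝ) : ℂ) * (z' - z) := by ring
    rw [e, hvdn, one_div, inv_mul_eq_div]
  have hNc : ∀ (n : ℕ) (a : ℂ), Nf ((((n : ℝ) + 1 : ℝ) : ℂ) * a) / ((n : ℝ) + 1) ≤ L * ‖a‖ := by
    intro n a
    rw [div_le_iff₀ (hpos n)]
    have h1 := hv.nl ((((n : ℝ) + 1 : ℝ) : ℂ) * a)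
    rw [norm_mul, Complex.norm_real, Real.norm_of_nonneg (hpos n).le] at h1
    linarith
  have hbd : ∀ n z x, |hh n z x| ≤ L * ‖z‖ := by
    intro n z x
    rw [hhd, abs_mul, abs_of_pos (one_div_pos.2 (hpos n))]
    have h1 := abs_le_dT F hq (hvtq 0) (hvtq ((((n : ℝ) + 1 : ℝ) : ℂ) * z)) x
    rw [hd0, hv.zero, sub_zero] at h1
    calc 1 / ((n : ℝ) + 1) * |v ((((n : ℝ) + 1 : ℝ) : ℂ) * z) x|
        ≤ 1 / ((n : ℝ) + 1) * Nf ((((n : ℝ) + 1 : ℝ) : ℂ) * z) :=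
          mul_le_mul_of_nonneg_left h1 (one_div_pos.2 (hpos n)).le
      _ = Nf ((((n : ℝ) + 1 : ℝ) : ℂ) * z) / ((n : ℝ) + 1) := by rw [one_div, inv_mul_eq_div]
      _ ≤ L * ‖z‖ := hNc n z
  have hex : ∀ z x, ∃ c : ℝ, |c| ≤ L * ‖z‖ ∧
      Tendsto (fun n => hh n z x) ((hyperfilter ℕ : Ultrafilter ℕ) : Filter ℕ) (𝓝 c) := fun z x =>
    ult_lim (hyperfilter ℕ) (Eventually.of_forall fun n => hbd n z x)
  choose w hw1 hw2 using hex
  have hl1 : ∀ z, TQ F q (w z) ∧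
      Tendsto (fun n => dT F q (hh n z) (w z)) ((hyperfilter ℕ : Ultrafilter ℕ) : Filter ℕ) (𝓝 0) :=
    fun z => tq_lim1 F hR hq (hyperfilter ℕ) (Eventually.of_forall fun n => htq n z) (hw2 z)
  have hU : ((hyperfilter ℕ : Ultrafilter ℕ) : Filter ℕ) ≤ atTop := by
    rw [← Nat.cofinite_eq_atTop]
    exact hyperfilter_le_cofinite
  have hdw : ∀ z z', dT F q (w z) (w z') = M (z' - z) := by
    intro z z'
    have h1 := (tq_lim F hR hq (hyperfilter ℕ) (Eventually.of_forall fun n => htq n z)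
      (Eventually.of_forall fun n => htq n z') (hw2 z) (hw2 z')).2.2
    have h2 := (hM1 (z' - z)).mono_left hU
    simp only [hdist] at h1
    exact tendsto_nhds_unique h1 h2
  refine ⟨w, M, ⟨?_, ?_, ?_, ?_, ?_⟩, hM2⟩
  · intro z
    rw [← hqd]
    exact (hl1 z).1
  · funext x
    have h1 := hw1 0 x
    rw [norm_zero, mul_zero] at h1
    exact abs_nonpos_iff.1 h1
  · intro z a
    rw [← hqd, hdw, add_sub_cancel_left]
  · intro a
    exact le_of_tendsto' (hM1 a) fun n => hNc n a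
  · intro S ep hep rho hrho
    have hev : ∀ᶠ n in ((hyperfilter ℕ : Ultrafilter ℕ) : Filter ℕ), ∀ z ∈ S,
        dT F q (hh n z) (w z) < ep / 2 := by
      rw [Filter.eventually_all_finset]
      intro z _
      exact (hl1 z).2.eventually_lt_const (half_pos hep)
    obtain ⟨n, hn⟩ := hev.exists
    have hR1 : (1 : ℝ) ≤ (n : ℝ) + 1 := by linarith [Nat.cast_nonneg (α := ℝ) n]
    obtain ⟨l', hl0, hl1', hl2⟩ := hv.app (S.image fun z => (((n : ℝ) + 1 : ℝ) : ℂ) * z) (ep / 2)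
      (half_pos hep) (rho / ((n : ℝ) + 1)) (div_pos hrho (hpos n))
    rw [lt_div_iff₀ (hpos n)] at hl1'
    refine ⟨l' * ((n : ℝ) + 1), mul_pos hl0 (hpos n), hl1', ?_⟩
    intro z hz x
    have h1 := hl2 _ (Finset.mem_image_of_mem _ hz) x
    rw [← hqd] at h1
    rw [← hqd]
    have e1 : ((l' * ((n : ℝ) + 1) : ℝ) : ℂ) * z = (l' : ℂ) * ((((n : ℝ) + 1 : ℝ) : ℂ) * z) := by
      push_cast
      ring
    rw [e1]
    have e2 : l' * v ((((n : ℝ) + 1 : ℝ) : ℂ) * z) x = l' * ((n : ℝ) + 1) * hh n z x := by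
      rw [hhd]
      have := (hpos n).ne'
      field_simp
    rw [e2] at h1
    have h2 : |w z x - hh n z x| ≤ ep / 2 :=
      (abs_le_dT F hq (htq n z) (hl1 z).1 x).trans (hn z hz).le
    obtain ⟨A, hA⟩ : ∃ A : ℝ, A = (u (x0 + (l' : ℂ) * ((((n : ℝ) + 1 : ℝ) : ℂ) * z))).1 x := ⟨_, rfl⟩
    rw [← hA] at h1 ⊢
    obtain ⟨l, hl⟩ : ∃ l : ℝ, l = l' * ((n : ℝ) + 1) := ⟨_, rfl⟩
    rw [← hl] at h1 ⊢
    have hlp : 0 < l := by
      rw [hl]
      exact mul_pos hl0 (hpos n)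
    have hll : l' ≤ l := by
      rw [hl]
      nlinarith
    have h3 : |l * hh n z x - l * w z x| ≤ l * (ep / 2) := by
      rw [← mul_sub, abs_mul, abs_of_pos hlp, abs_sub_comm]
      exact mul_le_mul_of_nonneg_left h2 hlp.le
    have h4 : A - (q x + l * w z x) = (A - (q x + l * hh n z x)) + (l * hh n z x - l * w z x) := by ring
    rw [h4]
    refine (abs_add_le _ _).trans ?_
    have h5 : ep / 2 * l' ≤ ep / 2 * l := mul_le_mul_of_nonneg_left hll (half_pos hep).le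
    linarith

theorem hom_of {u : ℂ → Nm F V} {x0 : ℂ} {L : ℝ} {w : ℂ → V → ℝ} {Nh : ℂ → ℝ}
    (hv : Vdat F u x0 L w Nh) (hh : ∀ (c : ℝ) (a : ℂ), Nh ((c : ℂ) * a) = |c| * Nh a) :
    Hom F (u x0).1 w Nh :=
  ⟨hv.tq, hv.zero, hv.dn, hh⟩

end

end H1NA
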