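import Pool.Agent.H1.NA.Le
import Pool.Agent.H1.NA.Fa
import Pool.Agent.H1.NA.Ue

set_option autoImplicit false

/-!
# Row Lf (MP_b319aa_NA, block B): THEOREM Blow

PROOF of afm_tan.  x ≠ 0; SpD E q gives q x ≤ q (cpt E b x) for non zero components.  b1 from hh: afm ≤ q (cpt E b1 x) + c b1 = q x + h x (Fa.afm_min).  Let b2 attain afm x = q (cpt E b2 x) + c b2
 (Fa.afm_min).  If q (cpt E b2 x) = q x: ≥ q x + h x by hh.  Otherwise q (cpt E b2 x) ≥ q x + 4 r (Rad), so afm x ≥ q x + 4 r - r > q x + c b1 = q x + h x.  So afm x = q x + h x.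
PROOF of net: closedBall 0 1 in ℂ is compact (totally bounded).
PROOF of blow_of.  N, s from Lb.lab_enum for A; E := Ecl e A s, a := s.  int: Lb.ecl_int; nz: Lb.ecl_nz; inj: s injective; spl: SpD E q: for x ≠ 0, cpt E b x = prt e A (s b) x (Lb.ecl_cpt), Lb.prt_ge and prt_ex
 with prt_out and hr (or H31NA.spd_of_bas).
 app: given ep, rho > 0.  r from rad_ex.  C := 1 + sum over b of (|(a b).re| + |(a b).im|).  d := ep / (4 (L + 1)), S a finite d-net of closedBall 0 1 (net).  hw.app with S, ep/2,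
 rho' := min rho (min R0 (r / C)) gives l.  Let dist y x0 ≤ l, z := (y - x0)/l, so ‖z‖ ≤ 1 and y = x0 + l z; z' in S with dist z z' ≤ d, ‖z'‖ ≤ 1.  x ≠ 0.
 |u y x - u (x0 + l z') x| ≤ ds = dist (u y) (u (x0 + l z')) ≤ L l d (both points in closedBall x0 R0; H50NA.abs_le_ds);  |u (x0 + l z') x - (q x + l w z' x)| ≤ (ep/2) l;
 |w z' x - w z x| ≤ Nh (z' - z) ≤ L d (La.hom_abs with Ue.hom_of, hw.nl).  Total ≤ L l d + (ep/2) l + l L d ≤ ep l.
 It remains: afm E q (fun b => (a b).re (y - x0).re + (a b).im (y - x0).im) x = q x + l w z x: afm_tan with c b := that number = l ((a b).re z.re + (a b).im z.im) (y - x0 = l z), |c b| ≤ l C < r, and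
 h := fun x => l * w z x: for a component x_b = cpt E b x = prt e A (s b) x ≠ 0: w z x_b = (s b).re z.re + (s b).im z.im (hypothesis h2 with Lb.prt_cls), Tsl q e A (w z) gives the two properties (the label of
 the existence part is s b for some b by Lb.prt_out and hr).
PROOF of blow_ex.  Ua.lip_loc, Ue.vdat_ex, Ue.wdat_ex, Ue.hom_of, Le.hom_class, blow_of.
-/

namespace H1NA

open H50NA MeasureTheory Set Filter Topology Metric

noncomputable section

variable {K : Type} [Field K] (F : VF K) {V : Type} [AddCommGroup V] [Module K V] [Module.Finite K V]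
variable {N : ℕ} {E : Fin N → Submodule K V}

include F in
theorem afm_tan {q : V → ℝ} (hq : SN F q) {r : ℝ} (hr : Rad q r) (hE : DirectSum.IsInternal E)
    (hs : SpD E q) {c : Fin N → ℝ} (hc : ∀ b, |c b| < r) {h : V → ℝ}
    (hh : ∀ x : V, x ≠ 0 → (∀ b, cpt E b x ≠ 0 → q (cpt E b x) = q x → h x ≤ c b) ∧
      ∃ b, cpt E b x ≠ 0 ∧ q (cpt E b x) = q x ∧ h x = c b) :
    ∀ x : V, x ≠ 0 → afm E q c x = q x + h x := by
  intro x hx
  obtain ⟨h1, b1, hb1, hq1, hc1⟩ := hh x hx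
  obtain ⟨h2, b2, hb2, he2⟩ := afm_min hE q c hx
  have h3 := h2 b1 hb1
  have h4 := abs_lt.1 (hc b1)
  have h5 := abs_lt.1 (hc b2)
  apply le_antisymm
  · rw [hq1, ← hc1] at h3
    exact h3
  · by_cases hqq : q (cpt E b2 x) = q x
    · have h6 := h1 b2 hb2 hqq
      rw [he2, hqq]
      linarith
    · have h6 := (hs x hx).1 b2 hb2
      have h7 : q x < q (cpt E b2 x) := lt_of_le_of_ne h6 (Ne.symm hqq)
      have h8 := hr.2 x _ hx hb2 h7
      have h9 := hr.1
      rw [he2]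
      linarith

theorem net {d : ℝ} (hd : 0 < d) : ∃ S : Finset ℂ, (∀ s ∈ S, ‖s‖ ≤ 1) ∧
    ∀ z : ℂ, ‖z‖ ≤ 1 → ∃ s ∈ S, dist z s ≤ d := by
  obtain ⟨t, ht, hf, hc⟩ := (isCompact_closedBall (0 : ℂ) 1).finite_cover_balls hd
  refine ⟨hf.toFinset, fun s hs => ?_, fun z hz => ?_⟩
  · have h1 := ht (hf.mem_toFinset.1 hs)
    rwa [mem_closedBall, dist_zero_right] at h1
  · have h1 : z ∈ closedBall (0 : ℂ) 1 := by rwa [mem_closedBall, dist_zero_right]
    have h2 := hc h1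
    rw [Set.mem_iUnion₂] at h2
    obtain ⟨s, hs, h3⟩ := h2
    exact ⟨s, hf.mem_toFinset.2 hs, (mem_ball.1 h3).le⟩

theorem blow_of {u : ℂ → Nm F V} {x0 : ℂ} {R0 L : ℝ} (hR0 : 0 < R0) (hL0 : 0 ≤ L)
    (hL : ∀ x ∈ closedBall x0 R0, ∀ y ∈ closedBall x0 R0, dist (u x) (u y) ≤ L * dist x y)
    {w : ℂ → V → ℝ} {Nh : ℂ → ℝ} (hw : Vdat F u x0 L w Nh) (H : Hom F (u x0).1 w Nh)
    {e : Bs K V} {A : Fin (Module.finrank K V) → ℂ} (h1 : Spl F e (u x0).1)
    (h2 : ∀ (c : ℂ) (x : V), x ≠ 0 → (∀ j, e.repr x j ≠ 0 → A j = c) →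
        ∀ z : ℂ, w z x = c.re * z.re + c.im * z.im) (h3 : ∀ z : ℂ, Tsl (u x0).1 e A (w z)) :
    ∃ (N : ℕ) (E : Fin N → Submodule K V) (a : Fin N → ℂ), Blow F u x0 N E a := by
  obtain ⟨N, s, hs, hr⟩ := lab_enum A
  have hq : SN F (u x0).1 := (u x0).2
  have hint : DirectSum.IsInternal (Ecl e A s) := ecl_int e hs hr
  have hcp : ∀ b x, cpt (Ecl e A s) b x = prt e A (s b) x := fun b x => ecl_cpt e hs hr b x
  have hspd : SpD (Ecl e A s) (u x0).1 := by
    intro x hx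
    refine ⟨fun b hb => ?_, ?_⟩
    · rw [hcp] at hb ⊢
      exact prt_ge F h1 A (s b) hx hb
    · obtain ⟨a, ha, ha2⟩ := prt_ex F h1 A hx
      obtain ⟨b, rfl⟩ := (hr a).2 (prt_out e A a x ha)
      exact ⟨b, by rw [hcp]; exact ha, by rw [hcp]; exact ha2.symm⟩
  refine ⟨N, Ecl e A s, s, hint, ecl_nz e hr, hs, hspd, fun ep hep rho hrho => ?_⟩
  obtain ⟨r, hrad⟩ := rad_ex F hq
  obtain ⟨C, hCdef⟩ : ∃ C : ℝ, C = 1 + ∑ b, (|(s b).re| + |(s b).im|) := ⟨_, rfl⟩
  have hCb : ∀ b, |(s b).re| + |(s b).im| ≤ C := by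
    intro b
    have h4 := Finset.single_le_sum (f := fun b => |(s b).re| + |(s b).im|)
      (fun j _ => add_nonneg (abs_nonneg _) (abs_nonneg _)) (Finset.mem_univ b)
    rw [hCdef]
    have h5 : |(s b).re| + |(s b).im| ≤ ∑ b, (|(s b).re| + |(s b).im|) := h4
    linarith
  have hC : 0 < C := by
    rw [hCdef]
    have : 0 ≤ ∑ b, (|(s b).re| + |(s b).im|) :=
      Finset.sum_nonneg fun j _ => add_nonneg (abs_nonneg _) (abs_nonneg _)
    linarith
  have hL1 : 0 < 4 * (L + 1) := by linarith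
  have hd : 0 < ep / (4 * (L + 1)) := div_pos hep hL1
  have hd2 : L * (ep / (4 * (L + 1))) ≤ ep / 4 := by
    have e1 : ep / 4 = (L + 1) * (ep / (4 * (L + 1))) := by
      have : L + 1 ≠ 0 := by linarith
      field_simp
    rw [e1]
    nlinarith
  obtain ⟨S, hS1, hS2⟩ := net hd
  obtain ⟨l, hl, hlr, hlapp⟩ := hw.app S (ep / 2) (by linarith) (min rho (min R0 (r / C)))
    (lt_min hrho (lt_min hR0 (div_pos hrad.1 hC)))
  have hl1 : l < rho := hlr.trans_le (min_le_left _ _)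
  have hl2 : l < R0 := hlr.trans_le ((min_le_right _ _).trans (min_le_left _ _))
  have hl3 : l * C < r := by
    have h4 : l < r / C := hlr.trans_le ((min_le_right _ _).trans (min_le_right _ _))
    exact (lt_div_iff₀ hC).1 h4
  refine ⟨l, hl, hl1, fun y hy x hx => ?_⟩
  obtain ⟨z, hz⟩ : ∃ z : ℂ, z = (y - x0) / (l : ℂ) := ⟨_, rfl⟩
  have hlc : (l : ℂ) ≠ 0 := by exact_mod_cast hl.ne'
  have hyz' : y - x0 = (l : ℂ) * z := by rw [hz, mul_div_cancel₀ _ hlc]
  have hyz : y = x0 + (l : ℂ) * z := by rw [← hyz']; ring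
  have hnl : ‖(l : ℂ)‖ = l := by rw [Complex.norm_real, Real.norm_of_nonneg hl.le]
  have hz1 : ‖z‖ ≤ 1 := by
    rw [dist_eq_norm, hyz', norm_mul, hnl] at hy
    exact le_of_mul_le_mul_left (by linarith) hl
  obtain ⟨z', hz'S, hdz⟩ := hS2 z hz1
  have hz'1 := hS1 z' hz'S
  have hyb : y ∈ closedBall x0 R0 := by
    rw [mem_closedBall]
    linarith
  have hyb' : x0 + (l : ℂ) * z' ∈ closedBall x0 R0 := by
    rw [mem_closedBall, dist_eq_norm, add_sub_cancel_left, norm_mul, hnl]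
    nlinarith
  have t1 : |(u y).1 x - (u (x0 + (l : ℂ) * z')).1 x| ≤ L * (l * (ep / (4 * (L + 1)))) := by
    have h4 := abs_le_ds F (u (x0 + (l : ℂ) * z')).2 (u y).2 x
    have h5 : dist (u (x0 + (l : ℂ) * z')) (u y) ≤ L * dist (x0 + (l : ℂ) * z') y :=
      hL _ hyb' _ hyb
    have h6 : dist (x0 + (l : ℂ) * z') y = l * dist z z' := by
      rw [hyz, dist_eq_norm, dist_eq_norm, add_sub_add_left_eq_sub, ← mul_sub, norm_mul, hnl,
        norm_sub_rev]
    rw [dist_nm, h6] at h5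
    refine (h4.trans h5).trans (mul_le_mul_of_nonneg_left ?_ hL0)
    exact mul_le_mul_of_nonneg_left hdz hl.le
  have t2 := hlapp z' hz'S x
  have t3 : |w z' x - w z x| ≤ L * (ep / (4 * (L + 1))) := by
    have h4 := hom_abs F hq H z (z' - z) x
    rw [add_sub_cancel] at h4
    refine h4.trans ((hw.nl _).trans (mul_le_mul_of_nonneg_left ?_ hL0))
    rw [← dist_eq_norm, dist_comm]
    exact hdz
  have hre : (y - x0).re = l * z.re := by
    rw [hyz', Complex.re_ofReal_mul]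
  have him : (y - x0).im = l * z.im := by
    rw [hyz', Complex.im_ofReal_mul]
  have hafm : afm (Ecl e A s) (u x0).1
      (fun b => (s b).re * (y - x0).re + (s b).im * (y - x0).im) x =
      (u x0).1 x + l * w z x := by
    refine afm_tan F hq hrad hint hspd (c := fun b => (s b).re * (y - x0).re +
      (s b).im * (y - x0).im) (h := fun x => l * w z x) (fun b => ?_) (fun x hx => ?_) x hx
    · have h4 : |z.re| ≤ 1 := (Complex.abs_re_le_norm z).trans hz1
      have h5 : |z.im| ≤ 1 := (Complex.abs_im_le_norm z).trans hz1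
      rw [hre, him]
      have h6 : |(s b).re * (l * z.re) + (s b).im * (l * z.im)| ≤
          |(s b).re * (l * z.re)| + |(s b).im * (l * z.im)| := abs_add_le _ _
      rw [abs_mul, abs_mul, abs_mul, abs_mul, abs_of_pos hl] at h6
      have h7 : |(s b).re| * (l * |z.re|) ≤ |(s b).re| * (l * 1) :=
        mul_le_mul_of_nonneg_left (mul_le_mul_of_nonneg_left h4 hl.le) (abs_nonneg _)
      have h8 : |(s b).im| * (l * |z.im|) ≤ |(s b).im| * (l * 1) :=
        mul_le_mul_of_nonneg_left (mul_le_mul_of_nonneg_left h5 hl.le) (abs_nonneg _)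
      have h9 : l * (|(s b).re| + |(s b).im|) ≤ l * C := mul_le_mul_of_nonneg_left (hCb b) hl.le
      nlinarith
    · obtain ⟨h4, a, ha, ha2, ha3⟩ := h3 z x hx
      have hval : ∀ b, prt e A (s b) x ≠ 0 → l * w z (prt e A (s b) x) =
          (s b).re * (y - x0).re + (s b).im * (y - x0).im := by
        intro b hb
        rw [h2 (s b) _ hb (fun j hj => prt_cls e A (s b) x j hj) z, hre, him]
        ring
      refine ⟨fun b hb hbq => ?_, ?_⟩
      · rw [hcp] at hb hbq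
        show l * w z x ≤ _
        rw [← hval b hb]
        exact mul_le_mul_of_nonneg_left (h4 (s b) hb hbq) hl.le
      · obtain ⟨b, rfl⟩ := (hr a).2 (prt_out e A a x ha)
        refine ⟨b, by rw [hcp]; exact ha, by rw [hcp]; exact ha2, ?_⟩
        show l * w z x = _
        rw [← hval b ha, ha3]
  rw [hafm]
  have e2 : (u y).1 x - ((u x0).1 x + l * w z x) =
      ((u y).1 x - (u (x0 + (l : ℂ) * z')).1 x) +
      ((u (x0 + (l : ℂ) * z')).1 x - ((u x0).1 x + l * w z' x)) + l * (w z' x - w z x) := by ring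
  rw [e2]
  refine (abs_add_le _ _).trans ?_
  have h4 := abs_add_le ((u y).1 x - (u (x0 + (l : ℂ) * z')).1 x)
    ((u (x0 + (l : ℂ) * z')).1 x - ((u x0).1 x + l * w z' x))
  have h5 : |l * (w z' x - w z x)| ≤ l * (L * (ep / (4 * (L + 1)))) := by
    rw [abs_mul, abs_of_pos hl]
    exact mul_le_mul_of_nonneg_left t3 hl.le
  have h6 : l * (L * (ep / (4 * (L + 1)))) ≤ l * (ep / 4) := mul_le_mul_of_nonneg_left hd2 hl.le
  nlinarith

theorem blow_ex (hR : Rf F) {u : ℂ → Nm F V} {O : Set ℂ} (h : LM u O) {x0 : ℂ} (hx : x0 ∈ O) :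
    ∃ (N : ℕ) (E : Fin N → Submodule K V) (a : Fin N → ℂ), Blow F u x0 N E a := by
  obtain ⟨R0, L, hR0, hL0, hsub, hL⟩ := lip_loc F h hx
  obtain ⟨v, Nf, hv⟩ := vdat_ex F hR h hR0 hL0 hsub hL
  obtain ⟨w, Nh, hw, hhom⟩ := wdat_ex F hR hv
  have H := hom_of F hw hhom
  obtain ⟨e, A, h1, h2, h3⟩ := hom_class F (u x0).2 H
  exact blow_of F hR0 hL0 hL hw H h1 h2 h3

end

end H1NA
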