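import Pool.Agent.H1.NA.Df

set_option autoImplicit false

/-!
# Row Ta (MP_b319aa_NA, block B): tangent vectors and splitting bases

Ldi F q b x i (leading index): x_i ≠ 0 and v x_i + q b_i = q x, x_i := b.repr x i.  If Spl F b q and x ≠ 0 then v x_i + q b_i ≥ q x whenever x_i ≠ 0.
Note v x_i + q b_i = q (x_i • b_i) (sn_nrm F hq).smul; for Spl F b q alone: apply Spl to x_i • b_i, whose only non zero coordinate is x_i, or use H50NA.spl_nrm with q 0 = 0).  So by Rad q r, if
 v x_i + q b_i > q x then v x_i + q b_i ≥ q x + 4 r (apply Rad to x and x_i • b_i).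
PROOFS.
* lsp_spl: x ≠ 0.  Let x_i ≠ 0.  If i is leading: q x + s h x ≤ v x_i + q b_i + s h b_i as h x ≤ h b_i.  Otherwise v x_i + q b_i ≥ q x + 4 r, and s h x < r, s h b_i > -r.
  Existence: the leading index of Lsp.ex gives equality.
* spl_lsp: b splits q by near_spl (al = q + s h).  Let i be leading: q x + s h x ≤ v x_i + (q b_i + s h b_i) = q x + s h b_i, so h x ≤ h b_i.  Existence: Spl gives i with x_i ≠ 0 and
  q x + s h x = v x_i + q b_i + s h b_i, so v x_i + q b_i < q x + 2 r, so it is not ≥ q x + 4 r, so it equals q x (it is ≥ q x): i is leading and h x = h b_i.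
* lsp_bd: C := sum of |h (b i)| over i; h x = h (b i) for some i if x ≠ 0; h 0 = 0.
* lsp_small: s0 := r / (2 (C + 1)).
* lsp_scale: multiply by c ≥ 0.   lsp_zero: Spl gives a leading index.   lsp_ext: h x = h (b i) ≥ ... : h x = h (b i) = k (b i) ≥ k x for the leading index i of Lsp.ex for h; symmetric.
* lsp_smul: x = 0 trivial.  x ≠ 0: the leading indices of c • x and of x are the same (v (c x_i) = v c + v x_i, q (c • x) = v c + q x): two inequalities with Lsp.ex and Lsp.le.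
* lsp_cong: set z = x - y, so q z > q x.  y = x + (-z), q (-z) = q z: q y = q x and y ≠ 0 (strict ultrametric inequality for the norm q; H31NA.nrm_strict in Pool/Agent/H31/NA/GB.lean).
  Claim: i leading for x iff leading for y.  If i is leading for x: v x_i + q b_i = q x < q z ≤ v z_i + q b_i (if z_i ≠ 0), so v x_i < v z_i, so y_i = x_i - z_i is not zero and v y_i = v x_i
  (H31NA.v_strict in GA.lean; trivial if z_i = 0): i is leading for y.  Symmetric (x = y + z, q y < q z).  Then two inequalities with Lsp.ex and Lsp.le.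
-/

namespace H1NA

open H50NA MeasureTheory Set Filter Topology Metric

noncomputable section

variable {K : Type} [Field K] (F : VF K) {V : Type} [AddCommGroup V] [Module K V] [Module.Finite K V]

omit [Module.Finite K V] in
private theorem Ta_gap {q : V → ℝ} (hq : Nrm F q) {r : ℝ} (hr : Rad q r) {b : Bs K V} {x : V}
    (hx : x ≠ 0) {i : Fin (Module.finrank K V)} (hi : b.repr x i ≠ 0)
    (hlt : q x < F.v (b.repr x i) + q (b i)) : q x + 4 * r ≤ F.v (b.repr x i) + q (b i) := by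
  have h1 : q (b.repr x i • b i) = F.v (b.repr x i) + q (b i) := hq.smul _ _ hi (b.ne_zero i)
  rw [← h1] at hlt ⊢
  exact hr.2 x _ hx (smul_ne_zero hi (b.ne_zero i)) hlt

theorem lsp_spl {q h : V → ℝ} (hq : SN F q) {r s : ℝ} (hr : Rad q r) (hs : 0 < s) {b : Bs K V} (h1 : Lsp F q b h)
    (hn : ∀ x, |s * h x| < r) : Spl F b (fun x => q x + s * h x) := by
  intro x hx
  have hN := sn_nrm F hq
  constructor
  · intro i hi
    change q x + s * h x ≤ F.v (b.repr x i) + (q (b i) + s * h (b i))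
    have hge := (h1.spl x hx).1 i hi
    rcases hge.lt_or_eq with hlt | heq
    · have h2 := Ta_gap F hN hr hx hi hlt
      have h3 := abs_lt.1 (hn x)
      have h4 := abs_lt.1 (hn (b i))
      linarith [h3.1, h3.2, h4.1, h4.2, hr.1]
    · have h2 := h1.le x hx i ⟨hi, heq.symm⟩
      have h3 := mul_le_mul_of_nonneg_left h2 hs.le
      linarith
  · obtain ⟨i, hl, he⟩ := h1.ex x hx
    refine ⟨i, hl.1, ?_⟩
    change q x + s * h x = F.v (b.repr x i) + (q (b i) + s * h (b i))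
    rw [he]
    linarith [hl.2]

theorem spl_lsp {q h : V → ℝ} (hq : SN F q) {r s : ℝ} (hr : Rad q r) (hs : 0 < s) (h0 : h 0 = 0)
    {b : Bs K V} (h1 : Spl F b (fun x => q x + s * h x)) (hn : ∀ x, |s * h x| < r) : Lsp F q b h := by
  have hN := sn_nrm F hq
  have hspl : Spl F b q := by
    refine near_spl F hr hq ?_ h1 ?_
    · change q 0 + s * h 0 = 0
      rw [hq.1, h0, mul_zero, add_zero]
    · intro x
      change |q x + s * h x - q x| < r
      rw [add_sub_cancel_left]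
      exact hn x
  refine ⟨h0, hspl, ?_, ?_⟩
  · intro x hx i hi
    have h2 : q x + s * h x ≤ F.v (b.repr x i) + (q (b i) + s * h (b i)) := (h1 x hx).1 i hi.1
    have h3 : s * h x ≤ s * h (b i) := by linarith [hi.2]
    exact le_of_mul_le_mul_left h3 hs
  · intro x hx
    obtain ⟨i, hi, he⟩ := (h1 x hx).2
    have he' : q x + s * h x = F.v (b.repr x i) + (q (b i) + s * h (b i)) := he
    have hge := (hspl x hx).1 i hi
    have h3 := abs_lt.1 (hn x)
    have h4 := abs_lt.1 (hn (b i))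
    have heq : q x = F.v (b.repr x i) + q (b i) := by
      rcases hge.lt_or_eq with hlt | heq
      · have h2 := Ta_gap F hN hr hx hi hlt
        exfalso
        linarith [h3.1, h3.2, h4.1, h4.2, hr.1]
      · exact heq
    refine ⟨i, ⟨hi, heq.symm⟩, ?_⟩
    apply mul_left_cancel₀ hs.ne'
    linarith

theorem lsp_bd {q h : V → ℝ} {b : Bs K V} (h1 : Lsp F q b h) : ∃ C : ℝ, 0 ≤ C ∧ ∀ x, |h x| ≤ C := by
  refine ⟨∑ i, |h (b i)|, Finset.sum_nonneg fun i _ => abs_nonneg _, ?_⟩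
  intro x
  by_cases hx : x = 0
  · rw [hx, h1.zero, abs_zero]
    exact Finset.sum_nonneg fun i _ => abs_nonneg _
  · obtain ⟨i, -, he⟩ := h1.ex x hx
    rw [he]
    exact Finset.single_le_sum (f := fun i => |h (b i)|) (fun i _ => abs_nonneg _)
      (Finset.mem_univ i)

theorem lsp_small {q h : V → ℝ} {b : Bs K V} (h1 : Lsp F q b h) {r : ℝ} (hr : 0 < r) :
    ∃ s0 : ℝ, 0 < s0 ∧ ∀ s : ℝ, 0 < s → s ≤ s0 → ∀ x, |s * h x| < r := by
  obtain ⟨C, hC, hb⟩ := lsp_bd F h1
  obtain ⟨s0, hs0⟩ : ∃ s0, s0 = r / (2 * (C + 1)) := ⟨_, rfl⟩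
  have hp : 0 < 2 * (C + 1) := by linarith
  have h2 : s0 * (2 * (C + 1)) = r := by
    rw [hs0, div_mul_cancel₀ _ hp.ne']
  have h3 : 0 < s0 := by
    rw [hs0]
    exact div_pos hr hp
  refine ⟨s0, h3, ?_⟩
  intro s hs hss x
  rw [abs_mul, abs_of_pos hs]
  have h4 : s * |h x| ≤ s0 * C := mul_le_mul hss (hb x) (abs_nonneg _) h3.le
  have h5 : s0 * C < r := by nlinarith
  linarith

theorem lsp_scale {q h : V → ℝ} {b : Bs K V} (h1 : Lsp F q b h) {c : ℝ} (hc : 0 ≤ c) :
    Lsp F q b (fun x => c * h x) := by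
  refine ⟨?_, h1.spl, ?_, ?_⟩
  · change c * h 0 = 0
    rw [h1.zero, mul_zero]
  · intro x hx i hi
    exact mul_le_mul_of_nonneg_left (h1.le x hx i hi) hc
  · intro x hx
    obtain ⟨i, hl, he⟩ := h1.ex x hx
    refine ⟨i, hl, ?_⟩
    change c * h x = c * h (b i)
    rw [he]

theorem lsp_zero {q : V → ℝ} {b : Bs K V} (hb : Spl F b q) : Lsp F q b (fun _ => 0) := by
  refine ⟨rfl, hb, fun _ _ _ _ => le_rfl, ?_⟩
  intro x hx
  obtain ⟨i, hi, he⟩ := (hb x hx).2
  exact ⟨i, ⟨hi, he.symm⟩, rfl⟩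

theorem lsp_ext {q h k : V → ℝ} {b : Bs K V} (h1 : Lsp F q b h) (h2 : Lsp F q b k)
    (he : ∀ i, h (b i) = k (b i)) : h = k := by
  funext x
  by_cases hx : x = 0
  · rw [hx, h1.zero, h2.zero]
  · apply le_antisymm
    · obtain ⟨i, hl, hi⟩ := h2.ex x hx
      rw [hi, ← he i]
      exact h1.le x hx i hl
    · obtain ⟨i, hl, hi⟩ := h1.ex x hx
      rw [hi, he i]
      exact h2.le x hx i hl

theorem lsp_smul {q h : V → ℝ} (hq : SN F q) {b : Bs K V} (h1 : Lsp F q b h) {c : K} (hc : c ≠ 0) (x : V) :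
    h (c • x) = h x := by
  by_cases hx : x = 0
  · rw [hx, smul_zero]
  have hN := sn_nrm F hq
  have hcx : c • x ≠ 0 := smul_ne_zero hc hx
  have key : ∀ i, Ldi F q b (c • x) i ↔ Ldi F q b x i := by
    intro i
    unfold Ldi
    have e1 : b.repr (c • x) i = c * b.repr x i := by simp
    rw [e1, hN.smul c x hc hx]
    constructor
    · rintro ⟨h2, h3⟩
      have h4 : b.repr x i ≠ 0 := right_ne_zero_of_mul h2
      rw [F.mul _ _ hc h4] at h3
      exact ⟨h4, by linarith⟩
    · rintro ⟨h2, h3⟩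
      refine ⟨mul_ne_zero hc h2, ?_⟩
      rw [F.mul _ _ hc h2]
      linarith
  apply le_antisymm
  · obtain ⟨i, hl, hi⟩ := h1.ex x hx
    rw [hi]
    exact h1.le _ hcx i ((key i).2 hl)
  · obtain ⟨i, hl, hi⟩ := h1.ex _ hcx
    rw [hi]
    exact h1.le x hx i ((key i).1 hl)

omit [Module.Finite K V] in
private theorem Ta_lead {q : V → ℝ} {b : Bs K V} (hb : Spl F b q) {x z y : V} (hz : z ≠ 0)
    (hlt : q x < q z) (hy : y = x - z) (hqy : q y = q x) {i : Fin (Module.finrank K V)}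
    (hi : Ldi F q b x i) : Ldi F q b y i := by
  have e1 : b.repr y i = b.repr x i + -(b.repr z i) := by
    rw [hy, map_sub, Finsupp.sub_apply, sub_eq_add_neg]
  by_cases hzi : b.repr z i = 0
  · unfold Ldi
    rw [e1, hzi, neg_zero, add_zero, hqy]
    exact hi
  · have h1 := (hb z hz).1 i hzi
    have h2 : F.v (b.repr x i) < F.v (-(b.repr z i)) := by
      rw [H31NA.v_neg F hzi]
      linarith [hi.2]
    obtain ⟨h3, h4⟩ := H31NA.v_strict F hi.1 (neg_ne_zero.2 hzi) h2
    unfold Ldi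
    rw [e1, h4, hqy]
    exact ⟨h3, hi.2⟩

theorem lsp_cong {q h : V → ℝ} (hq : SN F q) {b : Bs K V} (h1 : Lsp F q b h) {x y : V} (hx : x ≠ 0)
    (hxy : x - y ≠ 0) (hlt : q x < q (x - y)) : y ≠ 0 ∧ q y = q x ∧ h y = h x := by
  have hN := sn_nrm F hq
  obtain ⟨z, hz⟩ : ∃ z, z = x - y := ⟨_, rfl⟩
  rw [← hz] at hxy hlt
  have hneg : q (-z) = q z := H31NA.nrm_neg F hN z
  have hy : y = x + -z := by rw [hz]; abel
  obtain ⟨h2, h3⟩ := H31NA.nrm_strict F hN hx (neg_ne_zero.2 hxy) (by rw [hneg]; exact hlt)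
  rw [← hy] at h2 h3
  refine ⟨h2, h3, ?_⟩
  apply le_antisymm
  · obtain ⟨i, hl, hi⟩ := h1.ex x hx
    rw [hi]
    exact h1.le y h2 i (Ta_lead F h1.spl hxy hlt (by rw [hy]; abel) h3 hl)
  · obtain ⟨i, hl, hi⟩ := h1.ex y h2
    rw [hi]
    exact h1.le x hx i (Ta_lead F h1.spl (neg_ne_zero.2 hxy) (by rw [hneg, h3]; exact hlt)
      (by rw [hy]; abel) h3.symm hl)

end

end H1NA
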