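import Pool.Agent.H1.NA.Ta

set_option autoImplicit false

/-!
# Row Tb (MP_b319aa_NA, block B): common bases of tangent vectors, the distance dT

m := Module.finrank K V.
PROOFS.
* tq_common: take r with rad_ex, and s > 0 with |s h| < r and |s k| < r (Ta.lsp_small twice, minimum).  al := q + s h, be := q + s k are splittable (Ta.lsp_spl; value 0 at 0 as q 0 = 0, h 0 = 0).
  H50NA.common gives b splitting al and be; Ta.spl_lsp twice.
* tq_fin: r from rad_ex, B from H50NA.fin_bases hR hr hq; same argument (|al x - q x| = |s h x| < r).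
* dT_eq: unfold dT; the condition holds; let b' be the chosen basis.  With s as above: b and b' split al and be (Ta.lsp_spl), so by H50NA.ds_eq twice
  sum (be (b i) - al (b i)) ^ 2 = ds ^ 2 = sum (be (b' i) - al (b' i)) ^ 2, i.e. s ^ 2 * sum (k (b i) - h (b i)) ^ 2 = s ^ 2 * sum (k (b' i) - h (b' i)) ^ 2.  Real.sq_sqrt.
* dT_nn: Real.sqrt_nonneg.
* dT_ds: ds ^ 2 = s ^ 2 * dT ^ 2 by ds_eq and dT_eq with a common basis, both sides nonnegative (H50NA.ds_nonneg): pow_left_injective / abs_eq_abs or Real.sqrt.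
* dT_self: dT_eq with b: sum = 0.  dT_comm: dT_eq.
* dT_tri: s small for h, k, g: dT_ds and H50NA.ds_tri, divide by s.
* abs_le_dT: s small: s |k x - h x| ≤ ds = s dT by H50NA.abs_le_ds.
* dT_le_sup: dT ^ 2 = sum over Fin m of (..)^2 ≤ m c ^ 2.
* dT_scale: Ta.lsp_scale and dT_eq: dT (c h) (c k) ^ 2 = c ^ 2 dT h k ^ 2.
* tq_zero: q has a splitting basis; Ta.lsp_zero.
* dT_abs: triangle inequality four times.
-/

namespace H1NA

open H50NA MeasureTheory Set Filter Topology Metric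

noncomputable section

variable {K : Type} [Field K] (F : VF K) {V : Type} [AddCommGroup V] [Module K V] [Module.Finite K V]

private theorem Tb_sm {q h : V → ℝ} (h1 : TQ F q h) {r : ℝ} (hr : 0 < r) :
    ∃ s0 : ℝ, 0 < s0 ∧ ∀ s : ℝ, 0 < s → s ≤ s0 → ∀ x, |s * h x| < r := by
  obtain ⟨b, hb⟩ := h1
  exact lsp_small F hb hr

private theorem Tb_sn {q h : V → ℝ} (hq : SN F q) {r s : ℝ} (hr : Rad q r) (hs : 0 < s) (h1 : TQ F q h)
    (hn : ∀ x, |s * h x| < r) : SN F (fun x => q x + s * h x) := by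
  obtain ⟨b, hb⟩ := h1
  exact ⟨by simp only [hq.1, hb.zero, mul_zero, add_zero], b, lsp_spl F hq hr hs hb hn⟩

private theorem Tb_z {q h : V → ℝ} (h1 : TQ F q h) : h 0 = 0 := by
  obtain ⟨b, hb⟩ := h1
  exact hb.zero

private theorem Tb_two {q h k : V → ℝ} (hq : SN F q) (h1 : TQ F q h) (h2 : TQ F q k) :
    ∃ r s : ℝ, Rad q r ∧ 0 < s ∧ (∀ x, |s * h x| < r) ∧ ∀ x, |s * k x| < r := by
  obtain ⟨r, hr⟩ := rad_ex F hq
  obtain ⟨s1, hs1, h3⟩ := Tb_sm F h1 hr.1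
  obtain ⟨s2, hs2, h4⟩ := Tb_sm F h2 hr.1
  exact ⟨r, min s1 s2, hr, lt_min hs1 hs2, h3 _ (lt_min hs1 hs2) (min_le_left _ _),
    h4 _ (lt_min hs1 hs2) (min_le_right _ _)⟩

private theorem Tb_key {q h k : V → ℝ} (hq : SN F q) {r s : ℝ} (hr : Rad q r) (hs : 0 < s) {b : Bs K V}
    (h1 : Lsp F q b h) (h2 : Lsp F q b k) (hn : ∀ x, |s * h x| < r) (hn' : ∀ x, |s * k x| < r) :
    ds F (fun x => q x + s * h x) (fun x => q x + s * k x) ^ 2 = s ^ 2 * ∑ i, (k (b i) - h (b i)) ^ 2 := by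
  rw [ds_eq F (lsp_spl F hq hr hs h1 hn) (lsp_spl F hq hr hs h2 hn'), Finset.mul_sum]
  exact Finset.sum_congr rfl fun i _ => by ring

theorem tq_common {q h k : V → ℝ} (hq : SN F q) (h1 : TQ F q h) (h2 : TQ F q k) :
    ∃ b : Bs K V, Lsp F q b h ∧ Lsp F q b k := by
  obtain ⟨r, s, hr, hs, h3, h4⟩ := Tb_two F hq h1 h2
  obtain ⟨b, hb1, hb2⟩ := common F (Tb_sn F hq hr hs h1 h3) (Tb_sn F hq hr hs h2 h4)
  exact ⟨b, spl_lsp F hq hr hs (Tb_z F h1) hb1 h3, spl_lsp F hq hr hs (Tb_z F h2) hb2 h4⟩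

theorem tq_fin (hR : Rf F) {q : V → ℝ} (hq : SN F q) : ∃ B : Finset (Bs K V), ∀ h k : V → ℝ,
    TQ F q h → TQ F q k → ∃ b ∈ B, Lsp F q b h ∧ Lsp F q b k := by
  obtain ⟨r, hr⟩ := rad_ex F hq
  obtain ⟨B, hB⟩ := fin_bases F hR hr hq
  refine ⟨B, fun h k h1 h2 => ?_⟩
  obtain ⟨s1, hs1, h3⟩ := Tb_sm F h1 hr.1
  obtain ⟨s2, hs2, h4⟩ := Tb_sm F h2 hr.1
  have hs := lt_min hs1 hs2
  have h5 := h3 _ hs (min_le_left _ _)
  have h6 := h4 _ hs (min_le_right _ _)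
  obtain ⟨b, hbB, -, hb1, hb2⟩ := hB _ _ (Tb_sn F hq hr hs h1 h5) (Tb_sn F hq hr hs h2 h6)
    (fun x => by rw [add_sub_cancel_left]; exact h5 x) (fun x => by rw [add_sub_cancel_left]; exact h6 x)
  exact ⟨b, hbB, spl_lsp F hq hr hs (Tb_z F h1) hb1 h5, spl_lsp F hq hr hs (Tb_z F h2) hb2 h6⟩

theorem dT_eq {q h k : V → ℝ} (hq : SN F q) {b : Bs K V} (h1 : Lsp F q b h) (h2 : Lsp F q b k) :
    dT F q h k ^ 2 = ∑ i, (k (b i) - h (b i)) ^ 2 := by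
  have hh : ∃ b : Bs K V, Lsp F q b h ∧ Lsp F q b k := ⟨b, h1, h2⟩
  unfold dT
  rw [dif_pos hh, Real.sq_sqrt (Finset.sum_nonneg fun i _ => sq_nonneg _)]
  obtain ⟨g1, g2⟩ := hh.choose_spec
  obtain ⟨r, s, hr, hs, h3, h4⟩ := Tb_two F hq ⟨b, h1⟩ ⟨b, h2⟩
  have e1 := Tb_key F hq hr hs h1 h2 h3 h4
  have e2 := Tb_key F hq hr hs g1 g2 h3 h4
  rw [e1] at e2
  exact (mul_left_cancel₀ (pow_pos hs 2).ne' e2).symm

theorem dT_nn (q h k : V → ℝ) : 0 ≤ dT F q h k := by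
  unfold dT
  split_ifs
  · exact Real.sqrt_nonneg _
  · exact le_rfl

theorem dT_ds {q h k : V → ℝ} (hq : SN F q) {r s : ℝ} (hr : Rad q r) (hs : 0 < s) (h1 : TQ F q h)
    (h2 : TQ F q k) (hn : ∀ x, |s * h x| < r) (hn' : ∀ x, |s * k x| < r) :
    SN F (fun x => q x + s * h x) ∧ SN F (fun x => q x + s * k x) ∧
      ds F (fun x => q x + s * h x) (fun x => q x + s * k x) = s * dT F q h k := by
  refine ⟨Tb_sn F hq hr hs h1 hn, Tb_sn F hq hr hs h2 hn', ?_⟩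
  obtain ⟨b, hb1, hb2⟩ := tq_common F hq h1 h2
  refine (pow_left_inj₀ (ds_nonneg F _ _) (mul_nonneg hs.le (dT_nn F q h k)) two_ne_zero).1 ?_
  rw [Tb_key F hq hr hs hb1 hb2 hn hn', mul_pow, dT_eq F hq hb1 hb2]

theorem dT_self {q h : V → ℝ} (hq : SN F q) (h1 : TQ F q h) : dT F q h h = 0 := by
  obtain ⟨b, hb⟩ := h1
  have h2 := dT_eq F hq hb hb
  simp only [sub_self, ne_eq, OfNat.ofNat_ne_zero, not_false_eq_true, zero_pow,
    Finset.sum_const_zero] at h2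
  exact (pow_eq_zero_iff two_ne_zero).1 h2

theorem dT_comm {q h k : V → ℝ} (hq : SN F q) (h1 : TQ F q h) (h2 : TQ F q k) :
    dT F q h k = dT F q k h := by
  obtain ⟨b, hb1, hb2⟩ := tq_common F hq h1 h2
  refine (pow_left_inj₀ (dT_nn F q h k) (dT_nn F q k h) two_ne_zero).1 ?_
  rw [dT_eq F hq hb1 hb2, dT_eq F hq hb2 hb1]
  exact Finset.sum_congr rfl fun i _ => by ring

theorem dT_tri {q h k g : V → ℝ} (hq : SN F q) (h1 : TQ F q h) (h2 : TQ F q k) (h3 : TQ F q g) :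
    dT F q h g ≤ dT F q h k + dT F q k g := by
  obtain ⟨r, hr⟩ := rad_ex F hq
  obtain ⟨s1, hs1, k1⟩ := Tb_sm F h1 hr.1
  obtain ⟨s2, hs2, k2⟩ := Tb_sm F h2 hr.1
  obtain ⟨s3, hs3, k3⟩ := Tb_sm F h3 hr.1
  have hs := lt_min hs1 (lt_min hs2 hs3)
  have l1 := k1 _ hs (min_le_left _ _)
  have l2 := k2 _ hs ((min_le_right _ _).trans (min_le_left _ _))
  have l3 := k3 _ hs ((min_le_right _ _).trans (min_le_right _ _))
  obtain ⟨n1, n2, e1⟩ := dT_ds F hq hr hs h1 h2 l1 l2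
  obtain ⟨-, n3, e2⟩ := dT_ds F hq hr hs h2 h3 l2 l3
  obtain ⟨-, -, e3⟩ := dT_ds F hq hr hs h1 h3 l1 l3
  have ht := ds_tri F n1 n2 n3
  rw [e1, e2, e3, ← mul_add] at ht
  exact le_of_mul_le_mul_left ht hs

theorem abs_le_dT {q h k : V → ℝ} (hq : SN F q) (h1 : TQ F q h) (h2 : TQ F q k) (x : V) :
    |k x - h x| ≤ dT F q h k := by
  obtain ⟨r, s, hr, hs, h3, h4⟩ := Tb_two F hq h1 h2
  obtain ⟨n1, n2, e1⟩ := dT_ds F hq hr hs h1 h2 h3 h4
  have h5 := abs_le_ds F n1 n2 x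
  rw [e1, show q x + s * k x - (q x + s * h x) = s * (k x - h x) by ring, abs_mul, abs_of_pos hs] at h5
  exact le_of_mul_le_mul_left h5 hs

theorem dT_le_sup {q h k : V → ℝ} (hq : SN F q) (h1 : TQ F q h) (h2 : TQ F q k) {c : ℝ} (hc : 0 ≤ c)
    (hs : ∀ x, |k x - h x| ≤ c) : dT F q h k ≤ Real.sqrt (Module.finrank K V) * c := by
  obtain ⟨b, hb1, hb2⟩ := tq_common F hq h1 h2
  refine (pow_le_pow_iff_left₀ (dT_nn F q h k) (by positivity) two_ne_zero).1 ?_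
  rw [dT_eq F hq hb1 hb2, mul_pow, Real.sq_sqrt (Nat.cast_nonneg _)]
  refine (Finset.sum_le_sum fun i _ => sq_le_sq' (abs_le.1 (hs (b i))).1 (abs_le.1 (hs (b i))).2).trans
    (le_of_eq ?_)
  rw [Finset.sum_const, Finset.card_univ, Fintype.card_fin, nsmul_eq_mul]

theorem tq_scale {q h : V → ℝ} (h1 : TQ F q h) {c : ℝ} (hc : 0 ≤ c) : TQ F q (fun x => c * h x) := by
  obtain ⟨b, hb⟩ := h1
  exact ⟨b, lsp_scale F hb hc⟩

theorem dT_scale {q h k : V → ℝ} (hq : SN F q) (h1 : TQ F q h) (h2 : TQ F q k) {c : ℝ} (hc : 0 ≤ c) :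
    dT F q (fun x => c * h x) (fun x => c * k x) = c * dT F q h k := by
  obtain ⟨b, hb1, hb2⟩ := tq_common F hq h1 h2
  refine (pow_left_inj₀ (dT_nn F q _ _) (mul_nonneg hc (dT_nn F q h k)) two_ne_zero).1 ?_
  rw [dT_eq F hq (lsp_scale F hb1 hc) (lsp_scale F hb2 hc), mul_pow, dT_eq F hq hb1 hb2, Finset.mul_sum]
  exact Finset.sum_congr rfl fun i _ => by ring

theorem tq_zero {q : V → ℝ} (hq : SN F q) : TQ F q (fun _ => 0) := by
  obtain ⟨b, hb⟩ := hq.2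
  exact ⟨b, lsp_zero F hb⟩

theorem dT_abs {q h k h' k' : V → ℝ} (hq : SN F q) (h1 : TQ F q h) (h2 : TQ F q k) (h3 : TQ F q h')
    (h4 : TQ F q k') : |dT F q h k - dT F q h' k'| ≤ dT F q h h' + dT F q k k' := by
  have a1 := dT_tri F hq h1 h3 h2
  have a2 := dT_tri F hq h3 h4 h2
  have a3 := dT_tri F hq h3 h1 h4
  have a4 := dT_tri F hq h1 h2 h4
  have c1 := dT_comm F hq h1 h3
  have c2 := dT_comm F hq h2 h4
  rw [abs_le]
  constructor <;> linarith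

end

end H1NA
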