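import Pool.Agent.H1.NA.Tb
import Pool.Agent.H31.NA.GK

set_option autoImplicit false

/-!
# Row Tc (MP_b319aa_NA, block B): uniqueness of geodesics of tangent vectors; limits along ultrafilters

PROOF of dT_geo.  r from rad_ex, s > 0 with |s h|, |s k|, |s g| < r (Ta.lsp_small three times).  al = q + s h, be = q + s k, ga = q + s g: splittable, with distances s dT (Tb.dT_ds).
 l := ds al be = s dT h k; ds al ga = s dT h g ≤ t l, ds be ga = ds ga be = s dT g k ≤ (1 - t) l (H50NA.ds_comm).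
 H50NA.ds_cn: ds (gmf al be t) ga ^ 2 ≤ (1-t) ds al ga ^ 2 + t ds be ga ^ 2 - t (1-t) l ^ 2 ≤ (1-t) t^2 l^2 + t (1-t)^2 l^2 - t(1-t) l^2 = 0, so the distance is 0 and ga = gmf al be t
 (H50NA.ds_zero, gm_sn).  Let b be such that Lsp b h and Lsp b k.  b splits al and be (Ta.lsp_spl); H31NA.gmf_gen F h1 h2 ht0 ht1 (GK.lean): b splits ga = gmf al be t, with values
 (1-t) al (b i) + t be (b i), i.e. q (b i) + s g (b i) = (1-t)(q (b i) + s h (b i)) + t (q (b i) + s k (b i)): the value of g at b i.  Lsp b g: Ta.spl_lsp.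
PROOF of dT_geo_ge.  b common (Tb.tq_common); x = 0: all values 0.  x ≠ 0: g x = g (b i), i leading (Lsp.ex for g), = (1-t) h (b i) + t k (b i) ≥ (1-t) h x + t k x (Lsp.le).
PROOF of tq_lim.  B from Tb.tq_fin (finite).  For U-almost all n there is b in B with Lsp b (h n) and Lsp b (k n); since U is an ultrafilter and B is finite, there is one b in B with: for U-almost
 all n, Lsp b (h n) and Lsp b (k n)  (Ultrafilter.eventually_exists_mem_iff or finite_biUnion_mem_iff).  Then Lsp b h': zero: limit of 0 (h n 0 = 0).  spl: from any n (U is NeBot: Eventually.exists).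
 le: h n x ≤ h n (b i) eventually, le_of_tendsto_of_tendsto.  ex (x ≠ 0): for almost all n there is a leading i (in the finite set Fin m) with h n x = h n (b i); again one i works for almost all n
 (leading does not depend on n); so h' x = h' (b i) by uniqueness of limits (tendsto_nhds_unique_of_eventuallyEq).  Same for k'.  dT ^ 2 = sum (k n (b i) - h n (b i)) ^ 2 eventually (Tb.dT_eq),
 which converges to sum (k' (b i) - h' (b i)) ^ 2 = dT h' k' ^ 2; take square roots (Real.sqrt continuous, dT = sqrt (dT ^ 2)).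
PROOF of tq_lim1.  h' is in TQ by tq_lim (with k = h), then tq_lim with k n = h' constant, and dT_self.
-/

namespace H1NA

open H50NA MeasureTheory Set Filter Topology Metric

noncomputable section

variable {K : Type} [Field K] (F : VF K) {V : Type} [AddCommGroup V] [Module K V] [Module.Finite K V]

private theorem Tc_sm {q h : V → ℝ} (h1 : TQ F q h) {r : ℝ} (hr : 0 < r) :
    ∃ s0 : ℝ, 0 < s0 ∧ ∀ s : ℝ, 0 < s → s ≤ s0 → ∀ x, |s * h x| < r := by
  obtain ⟨b, hb⟩ := h1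
  exact lsp_small F hb hr

theorem dT_geo {q h k g : V → ℝ} (hq : SN F q) (h1 : TQ F q h) (h2 : TQ F q k) (h3 : TQ F q g) {t : ℝ}
    (ht0 : 0 ≤ t) (ht1 : t ≤ 1) (ha : dT F q h g ≤ t * dT F q h k)
    (hb : dT F q g k ≤ (1 - t) * dT F q h k) {b : Bs K V} (hbh : Lsp F q b h) (hbk : Lsp F q b k) :
    Lsp F q b g ∧ ∀ i, g (b i) = (1 - t) * h (b i) + t * k (b i) := by
  obtain ⟨r, hr⟩ := rad_ex F hq
  obtain ⟨s1, hs1, k1⟩ := Tc_sm F h1 hr.1
  obtain ⟨s2, hs2, k2⟩ := Tc_sm F h2 hr.1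
  obtain ⟨s3, hs3, k3⟩ := Tc_sm F h3 hr.1
  obtain ⟨s, hsd⟩ : ∃ s, s = min s1 (min s2 s3) := ⟨_, rfl⟩
  have hs : 0 < s := by
    rw [hsd]
    exact lt_min hs1 (lt_min hs2 hs3)
  have l1 := k1 s hs (by rw [hsd]; exact min_le_left _ _)
  have l2 := k2 s hs (by rw [hsd]; exact (min_le_right _ _).trans (min_le_left _ _))
  have l3 := k3 s hs (by rw [hsd]; exact (min_le_right _ _).trans (min_le_right _ _))
  obtain ⟨nh, nk, ehk⟩ := dT_ds F hq hr hs h1 h2 l1 l2
  obtain ⟨-, ng, ehg⟩ := dT_ds F hq hr hs h1 h3 l1 l3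
  obtain ⟨-, -, ekg⟩ := dT_ds F hq hr hs h2 h3 l2 l3
  rw [dT_comm F hq h3 h2] at hb
  have hcn := ds_cn F nh nk ng ht0 ht1
  have hD := dT_nn F q h k
  have hA := dT_nn F q h g
  have hB := dT_nn F q k g
  have hA2 : dT F q h g ^ 2 ≤ (t * dT F q h k) ^ 2 := pow_le_pow_left₀ hA ha 2
  have hB2 : dT F q k g ^ 2 ≤ ((1 - t) * dT F q h k) ^ 2 := pow_le_pow_left₀ hB hb 2
  have hz : ds F (gmf F (fun x => q x + s * h x) (fun x => q x + s * k x) t)
      (fun x => q x + s * g x) ^ 2 ≤ 0 := by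
    refine hcn.trans ?_
    rw [ehg, ekg, ehk]
    have e1 : (1 - t) * (s * dT F q h g) ^ 2 + t * (s * dT F q k g) ^ 2 -
        t * (1 - t) * (s * dT F q h k) ^ 2 =
        s ^ 2 * ((1 - t) * dT F q h g ^ 2 + t * dT F q k g ^ 2 - t * (1 - t) * dT F q h k ^ 2) := by
      ring
    rw [e1]
    have e2 : (1 - t) * dT F q h g ^ 2 + t * dT F q k g ^ 2 - t * (1 - t) * dT F q h k ^ 2 ≤ 0 := by
      have m1 := mul_le_mul_of_nonneg_left hA2 (sub_nonneg.2 ht1)
      have m2 := mul_le_mul_of_nonneg_left hB2 ht0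
      have e3 : (1 - t) * (t * dT F q h k) ^ 2 + t * ((1 - t) * dT F q h k) ^ 2 =
          t * (1 - t) * dT F q h k ^ 2 := by ring
      linarith
    exact mul_nonpos_of_nonneg_of_nonpos (sq_nonneg s) e2
  have hz0 : ds F (gmf F (fun x => q x + s * h x) (fun x => q x + s * k x) t)
      (fun x => q x + s * g x) = 0 :=
    (pow_eq_zero_iff two_ne_zero).1 (le_antisymm hz (sq_nonneg _))
  have heq := ds_zero F (gm_sn F nh nk t) ng hz0
  have hb1 := lsp_spl F hq hr hs hbh l1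
  have hb2 := lsp_spl F hq hr hs hbk l2
  obtain ⟨g1, g2⟩ := H31NA.gmf_gen F hb1 hb2 ht0 ht1
  rw [heq] at g1 g2
  obtain ⟨bg, hbg⟩ := h3
  refine ⟨spl_lsp F hq hr hs hbg.zero g1 l3, fun i => ?_⟩
  have g3 : q (b i) + s * g (b i) =
      (1 - t) * (q (b i) + s * h (b i)) + t * (q (b i) + s * k (b i)) := g2 i
  apply mul_left_cancel₀ hs.ne'
  linarith

theorem dT_geo_ge {q h k g : V → ℝ} (hq : SN F q) (h1 : TQ F q h) (h2 : TQ F q k) (h3 : TQ F q g) {t : ℝ}
    (ht0 : 0 ≤ t) (ht1 : t ≤ 1) (ha : dT F q h g ≤ t * dT F q h k)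
    (hb : dT F q g k ≤ (1 - t) * dT F q h k) (x : V) : (1 - t) * h x + t * k x ≤ g x := by
  obtain ⟨b, hbh, hbk⟩ := tq_common F hq h1 h2
  obtain ⟨hg, hv⟩ := dT_geo F hq h1 h2 h3 ht0 ht1 ha hb hbh hbk
  by_cases hx : x = 0
  · rw [hx, hbh.zero, hbk.zero, hg.zero, mul_zero, mul_zero, add_zero]
  · obtain ⟨i, hl, he⟩ := hg.ex x hx
    rw [he, hv i]
    have m1 := mul_le_mul_of_nonneg_left (hbh.le x hx i hl) (sub_nonneg.2 ht1)
    have m2 := mul_le_mul_of_nonneg_left (hbk.le x hx i hl) ht0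
    linarith

omit [Module.Finite K V] in
private theorem Tc_lsp {q : V → ℝ} {ι : Type} (U : Ultrafilter ι) {h : ι → V → ℝ} {h' : V → ℝ}
    {b : Bs K V} (h1 : ∀ᶠ n in (U : Filter ι), Lsp F q b (h n))
    (h3 : ∀ x, Tendsto (fun n => h n x) (U : Filter ι) (𝓝 (h' x))) : Lsp F q b h' := by
  obtain ⟨n0, hn0⟩ := h1.exists
  refine ⟨?_, hn0.spl, ?_, ?_⟩
  · refine tendsto_nhds_unique (h3 0) ?_
    refine Tendsto.congr' (f₁ := fun _ => (0 : ℝ)) ?_ tendsto_const_nhds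
    filter_upwards [h1] with n hn
    exact hn.zero.symm
  · intro x hx i hi
    refine le_of_tendsto_of_tendsto (h3 x) (h3 (b i)) ?_
    filter_upwards [h1] with n hn
    exact hn.le x hx i hi
  · intro x hx
    have h2 : ∀ᶠ n in (U : Filter ι), ∃ i, Ldi F q b x i ∧ h n x = h n (b i) := by
      filter_upwards [h1] with n hn
      exact hn.ex x hx
    obtain ⟨i, hi⟩ := Ultrafilter.eventually_exists_iff.1 h2
    obtain ⟨n1, hn1⟩ := hi.exists
    refine ⟨i, hn1.1, tendsto_nhds_unique (h3 x) ?_⟩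
    refine Tendsto.congr' ?_ (h3 (b i))
    filter_upwards [hi] with n hn
    exact hn.2.symm

theorem tq_lim (hR : Rf F) {q : V → ℝ} (hq : SN F q) {ι : Type} (U : Ultrafilter ι) {h k : ι → V → ℝ}
    {h' k' : V → ℝ} (h1 : ∀ᶠ n in (U : Filter ι), TQ F q (h n)) (h2 : ∀ᶠ n in (U : Filter ι), TQ F q (k n))
    (h3 : ∀ x, Tendsto (fun n => h n x) (U : Filter ι) (𝓝 (h' x)))
    (h4 : ∀ x, Tendsto (fun n => k n x) (U : Filter ι) (𝓝 (k' x))) :
    TQ F q h' ∧ TQ F q k' ∧ Tendsto (fun n => dT F q (h n) (k n)) (U : Filter ι) (𝓝 (dT F q h' k')) := by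
  obtain ⟨B, hB⟩ := tq_fin F hR hq
  have h5 : ∀ᶠ n in (U : Filter ι), ∃ b ∈ (B : Set (Bs K V)), Lsp F q b (h n) ∧ Lsp F q b (k n) := by
    filter_upwards [h1, h2] with n hn hn'
    exact hB _ _ hn hn'
  obtain ⟨b, -, hb⟩ := (Ultrafilter.eventually_exists_mem_iff B.finite_toSet).1 h5
  have hbh : Lsp F q b h' := Tc_lsp F U (hb.mono fun n hn => hn.1) h3
  have hbk : Lsp F q b k' := Tc_lsp F U (hb.mono fun n hn => hn.2) h4
  refine ⟨⟨b, hbh⟩, ⟨b, hbk⟩, ?_⟩
  have hsq : ∀ a c : V → ℝ, Lsp F q b a → Lsp F q b c →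
      dT F q a c = Real.sqrt (∑ i, (c (b i) - a (b i)) ^ 2) := by
    intro a c ha hc
    rw [← dT_eq F hq ha hc, Real.sqrt_sq (dT_nn F q a c)]
  rw [hsq h' k' hbh hbk]
  have hlim : Tendsto (fun n => Real.sqrt (∑ i, (k n (b i) - h n (b i)) ^ 2)) (U : Filter ι)
      (𝓝 (Real.sqrt (∑ i, (k' (b i) - h' (b i)) ^ 2))) := by
    refine (Real.continuous_sqrt.tendsto _).comp ?_
    exact tendsto_finsetSum _ fun i _ => ((h4 (b i)).sub (h3 (b i))).pow 2
  refine Tendsto.congr' ?_ hlim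
  filter_upwards [hb] with n hn
  exact (hsq _ _ hn.1 hn.2).symm

theorem tq_lim1 (hR : Rf F) {q : V → ℝ} (hq : SN F q) {ι : Type} (U : Ultrafilter ι) {h : ι → V → ℝ}
    {h' : V → ℝ} (h1 : ∀ᶠ n in (U : Filter ι), TQ F q (h n))
    (h3 : ∀ x, Tendsto (fun n => h n x) (U : Filter ι) (𝓝 (h' x))) :
    TQ F q h' ∧ Tendsto (fun n => dT F q (h n) h') (U : Filter ι) (𝓝 0) := by
  obtain ⟨h5, -, -⟩ := tq_lim F hR hq U h1 h1 h3 h3
  obtain ⟨-, -, h6⟩ := tq_lim F hR hq U (k := fun _ => h') (k' := h') h1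
    (Eventually.of_forall fun _ => h5) h3 (fun x => tendsto_const_nhds)
  rw [dT_self F hq h5] at h6
  exact ⟨h5, h6⟩

end

end H1NA
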