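import Pool.Agent.H1.NA.Tb

set_option autoImplicit false

/-!
# Row Ua (MP_b319aa_NA, block B): difference quotients of a local minimiser are tangent vectors

PROOFS.  q := (u x0).1, al := (u (x0 + l z)).1; both splittable (.2); dist in Nm is ds (H50NA.dist_nm, rfl).
* lip_loc: O is open, u is Lpo on O: closedBall x0 R0 ⊆ O for some R0 > 0 (nhds_basis_closedBall), compact; L := max of the constant and 0.
* dq_bd: |al x - q x| ≤ ds q al (H50NA.abs_le_ds) = dist (u x0) (u (x0 + l z)) ≤ L |l z| = L l ‖z‖; divide by l.   (x0 and x0 + l z are in closedBall x0 R0; if R0 < 0 then l ‖z‖ ≤ R0 is impossible.)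
* dq_eq: q + l * dq = al (funext, field_simp).
* dq_tq: al has a splitting basis b ((u _).2.2); Ta.spl_lsp with s = l, h = dq (dq at 0 is 0), q + l dq = al, |l dq| ≤ L l ‖z‖ < r.
* dq_dT: Tb.dT_ds with s = l and dq_eq: ds = l dT.
-/

namespace H1NA

open H50NA MeasureTheory Set Filter Topology Metric

noncomputable section

variable {K : Type} [Field K] (F : VF K) {V : Type} [AddCommGroup V] [Module K V] [Module.Finite K V]

theorem lip_loc {u : ℂ → Nm F V} {O : Set ℂ} (h : LM u O) {x0 : ℂ} (hx : x0 ∈ O) :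
    ∃ R0 L : ℝ, 0 < R0 ∧ 0 ≤ L ∧ closedBall x0 R0 ⊆ O ∧
      ∀ x ∈ closedBall x0 R0, ∀ y ∈ closedBall x0 R0, dist (u x) (u y) ≤ L * dist x y := by
  obtain ⟨R0, hR0, hsub⟩ := Metric.nhds_basis_closedBall.mem_iff.1 (h.opn.mem_nhds hx)
  obtain ⟨L, hL⟩ := h.lip _ hsub (isCompact_closedBall x0 R0)
  refine ⟨R0, max L 0, hR0, le_max_right _ _, hsub, fun x hx y hy => ?_⟩
  exact (hL x hx y hy).trans (mul_le_mul_of_nonneg_right (le_max_left _ _) dist_nonneg)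

theorem Ua_dist {u : ℂ → Nm F V} {x0 : ℂ} {R0 L : ℝ}
    (hL : ∀ x ∈ closedBall x0 R0, ∀ y ∈ closedBall x0 R0, dist (u x) (u y) ≤ L * dist x y)
    {l : ℝ} (hl : 0 < l) {z : ℂ} (h1 : l * ‖z‖ ≤ R0) :
    dist (u x0) (u (x0 + (l : ℂ) * z)) ≤ L * (l * ‖z‖) := by
  have h0 : (0 : ℝ) ≤ R0 := (mul_nonneg hl.le (norm_nonneg z)).trans h1
  have e : dist x0 (x0 + (l : ℂ) * z) = l * ‖z‖ := by
    rw [dist_comm, dist_eq_norm, add_sub_cancel_left, norm_mul, Complex.norm_real,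
      Real.norm_of_nonneg hl.le]
  have h2 := hL x0 (mem_closedBall_self h0) (x0 + (l : ℂ) * z) (by
    rw [mem_closedBall, dist_comm, e]
    exact h1)
  rwa [e] at h2

theorem dq_bd {u : ℂ → Nm F V} {x0 : ℂ} {R0 L : ℝ}
    (hL : ∀ x ∈ closedBall x0 R0, ∀ y ∈ closedBall x0 R0, dist (u x) (u y) ≤ L * dist x y)
    {l : ℝ} (hl : 0 < l) {z : ℂ} (h1 : l * ‖z‖ ≤ R0) (x : V) : |dq F u x0 l z x| ≤ L * ‖z‖ := by
  have h2 := Ua_dist F hL hl h1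
  have h3 : |(u (x0 + (l : ℂ) * z)).1 x - (u x0).1 x| ≤ dist (u x0) (u (x0 + (l : ℂ) * z)) :=
    abs_le_ds F (u x0).2 (u (x0 + (l : ℂ) * z)).2 x
  unfold dq
  rw [abs_div, abs_of_pos hl, div_le_iff₀ hl]
  calc |(u (x0 + (l : ℂ) * z)).1 x - (u x0).1 x| ≤ L * (l * ‖z‖) := h3.trans h2
    _ = L * ‖z‖ * l := by ring

theorem dq_eq (u : ℂ → Nm F V) (x0 : ℂ) {l : ℝ} (hl : 0 < l) (z : ℂ) :
    (fun x => (u x0).1 x + l * dq F u x0 l z x) = (u (x0 + (l : ℂ) * z)).1 := by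
  funext x
  unfold dq
  have := hl.ne'
  field_simp
  ring

theorem Ua_lt {u : ℂ → Nm F V} {x0 : ℂ} {R0 L r : ℝ}
    (hL : ∀ x ∈ closedBall x0 R0, ∀ y ∈ closedBall x0 R0, dist (u x) (u y) ≤ L * dist x y)
    {l : ℝ} (hl : 0 < l) {z : ℂ} (h1 : l * ‖z‖ ≤ R0) (h2 : L * (l * ‖z‖) < r) (x : V) :
    |l * dq F u x0 l z x| < r := by
  rw [abs_mul, abs_of_pos hl]
  have h3 := mul_le_mul_of_nonneg_left (dq_bd F hL hl h1 x) hl.le
  calc l * |dq F u x0 l z x| ≤ l * (L * ‖z‖) := h3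
    _ = L * (l * ‖z‖) := by ring
    _ < r := h2

theorem dq_tq {u : ℂ → Nm F V} {x0 : ℂ} {R0 L r : ℝ} (hr : Rad (u x0).1 r)
    (hL : ∀ x ∈ closedBall x0 R0, ∀ y ∈ closedBall x0 R0, dist (u x) (u y) ≤ L * dist x y)
    {l : ℝ} (hl : 0 < l) {z : ℂ} (h1 : l * ‖z‖ ≤ R0) (h2 : L * (l * ‖z‖) < r) :
    TQ F (u x0).1 (dq F u x0 l z) := by
  obtain ⟨h0, b, hb⟩ := (u (x0 + (l : ℂ) * z)).2
  refine ⟨b, spl_lsp F (u x0).2 hr hl ?_ ?_ (Ua_lt F hL hl h1 h2)⟩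
  · unfold dq
    rw [h0, (u x0).2.1, sub_zero, zero_div]
  · rw [dq_eq F u x0 hl z]
    exact hb

theorem dq_dT {u : ℂ → Nm F V} {x0 : ℂ} {R0 L r : ℝ} (hr : Rad (u x0).1 r)
    (hL : ∀ x ∈ closedBall x0 R0, ∀ y ∈ closedBall x0 R0, dist (u x) (u y) ≤ L * dist x y)
    {l : ℝ} (hl : 0 < l) {z z' : ℂ} (h1 : l * ‖z‖ ≤ R0) (h2 : L * (l * ‖z‖) < r)
    (h3 : l * ‖z'‖ ≤ R0) (h4 : L * (l * ‖z'‖) < r) :
    dT F (u x0).1 (dq F u x0 l z) (dq F u x0 l z') =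
      dist (u (x0 + (l : ℂ) * z)) (u (x0 + (l : ℂ) * z')) / l := by
  obtain ⟨-, -, h5⟩ := dT_ds F (u x0).2 hr hl (dq_tq F hr hL hl h1 h2) (dq_tq F hr hL hl h3 h4)
    (Ua_lt F hL hl h1 h2) (Ua_lt F hL hl h3 h4)
  rw [dq_eq F u x0 hl z, dq_eq F u x0 hl z'] at h5
  rw [dist_nm, h5, mul_div_cancel_left₀ _ hl.ne']

end

end H1NA
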