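import Pool.Agent.H1.NA.Tc
import Pool.Agent.H1.NA.Ua
import Pool.Agent.H1.NA.Ub

set_option autoImplicit false

/-!
# Row Uc (MP_b319aa_NA, block B): the blow-up limit

U := Filter.hyperfilter ℕ (an ultrafilter, ≤ atTop: Filter.hyperfilter_le_cofinite, Nat.cofinite_eq_atTop), l n := 1/(n+1), q := (u x0).1, dist in Nm is ds.
PROOF of v_ex.  For z fixed: for n large l n ‖z‖ ≤ R0, so |dq u x0 (l n) z x| ≤ L ‖z‖ (Ua.dq_bd) and (r from rad_ex) L (l n ‖z‖) < r, so dq u x0 (l n) z is in TQ (Ua.dq_tq): for U-almost all n.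
 By Ub.ult_lim there is v z x with dq u x0 (l n) z x → v z x along U (choose, for all z and x; for z = 0: dq = 0 for all n as x0 + l * 0 = x0, so v 0 x = 0 by uniqueness of limits).
 Tc.tq_lim1: v z in TQ and dT (dq (l n) z) (v z) → 0.  Tc.tq_lim: dT (dq (l n) z) (dq (l n) z') → dT (v z) (v z'), and for n large this is dist (..)(..) / l n = dist * (n+1) (Ua.dq_dT; use
 Tendsto.congr').  Lipschitz: dist (..)(..) * (n+1) ≤ L |l n (z - z')| (n+1) = L dist z z' for n large; le_of_tendsto.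
PROOF of vdat_app.  For z in S (finite): eventually along U: dT (dq (l n) z) (v z) < ep, dq (l n) z in TQ, and l n < rho; finite intersection (Filter.eventually_all_finset); take one n
 (Eventually.exists): |dq x - v z x| ≤ dT (Tb.abs_le_dT, Tb.dT_comm) < ep; multiply by l n: u (x0 + l z) x - q x = l dq x.
-/

namespace H1NA

open H50NA MeasureTheory Set Filter Topology Metric

noncomputable section

variable {K : Type} [Field K] (F : VF K) {V : Type} [AddCommGroup V] [Module K V] [Module.Finite K V]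

private theorem Uc_le : (hyperfilter ℕ : Filter ℕ) ≤ atTop := by
  rw [← Nat.cofinite_eq_atTop]
  exact hyperfilter_le_cofinite

private theorem Uc_l (n : ℕ) : (0 : ℝ) < 1 / ((n : ℝ) + 1) := by positivity

private theorem Uc_ev {R0 L r : ℝ} (hR0 : 0 < R0) (hr : 0 < r) (z : ℂ) :
    ∀ᶠ n : ℕ in atTop, 1 / ((n : ℝ) + 1) * ‖z‖ ≤ R0 ∧ L * (1 / ((n : ℝ) + 1) * ‖z‖) < r := by
  have h0 : Tendsto (fun n : ℕ => 1 / ((n : ℝ) + 1)) atTop (𝓝 0) :=
    tendsto_one_div_add_atTop_nhds_zero_nat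
  have h1 : Tendsto (fun n : ℕ => 1 / ((n : ℝ) + 1) * ‖z‖) atTop (𝓝 0) := by
    have := h0.mul_const ‖z‖
    rwa [zero_mul] at this
  have h2 : Tendsto (fun n : ℕ => L * (1 / ((n : ℝ) + 1) * ‖z‖)) atTop (𝓝 0) := by
    have := h1.const_mul L
    rwa [mul_zero] at this
  filter_upwards [h1.eventually_lt_const hR0, h2.eventually_lt_const hr] with n a1 a2
  exact ⟨a1.le, a2⟩

private theorem Uc_mem {x0 z : ℂ} {l R0 : ℝ} (hl : 0 < l) (h : l * ‖z‖ ≤ R0) :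
    x0 + (l : ℂ) * z ∈ closedBall x0 R0 := by
  rw [mem_closedBall, dist_eq_norm, add_sub_cancel_left, norm_mul, Complex.norm_real,
    Real.norm_of_nonneg hl.le]
  exact h

theorem v_ex (hR : Rf F) {u : ℂ → Nm F V} {x0 : ℂ} {R0 L : ℝ} (hR0 : 0 < R0) (hL0 : 0 ≤ L)
    (hL : ∀ x ∈ closedBall x0 R0, ∀ y ∈ closedBall x0 R0, dist (u x) (u y) ≤ L * dist x y) :
    ∃ v : ℂ → V → ℝ, (∀ z, TQ F (u x0).1 (v z)) ∧ v 0 = (fun _ => 0) ∧
      (∀ z z', dT F (u x0).1 (v z) (v z') ≤ L * dist z z') ∧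
      (∀ z, Tendsto (fun n : ℕ => dT F (u x0).1 (dq F u x0 (1 / ((n : ℝ) + 1)) z) (v z))
        (hyperfilter ℕ : Filter ℕ) (𝓝 0)) ∧
      ∀ z z', Tendsto (fun n : ℕ => dist (u (x0 + ((1 / ((n : ℝ) + 1) : ℝ) : ℂ) * z))
        (u (x0 + ((1 / ((n : ℝ) + 1) : ℝ) : ℂ) * z')) * ((n : ℝ) + 1)) (hyperfilter ℕ : Filter ℕ)
        (𝓝 (dT F (u x0).1 (v z) (v z'))) := by
  have hq : SN F (u x0).1 := (u x0).2
  obtain ⟨r, hr⟩ := rad_ex F hq
  have hbd : ∀ z x, ∀ᶠ n : ℕ in ((hyperfilter ℕ : Ultrafilter ℕ) : Filter ℕ),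
      |dq F u x0 (1 / ((n : ℝ) + 1)) z x| ≤ L * ‖z‖ := by
    intro z x
    filter_upwards [Uc_le (Uc_ev (L := L) hR0 hr.1 z)] with n hn
    exact dq_bd F hL (Uc_l n) hn.1 x
  have htq : ∀ z, ∀ᶠ n : ℕ in ((hyperfilter ℕ : Ultrafilter ℕ) : Filter ℕ),
      TQ F (u x0).1 (dq F u x0 (1 / ((n : ℝ) + 1)) z) := by
    intro z
    filter_upwards [Uc_le (Uc_ev (L := L) hR0 hr.1 z)] with n hn
    exact dq_tq F hr hL (Uc_l n) hn.1 hn.2
  have hex : ∀ z x, ∃ c : ℝ, |c| ≤ L * ‖z‖ ∧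
      Tendsto (fun n : ℕ => dq F u x0 (1 / ((n : ℝ) + 1)) z x)
        ((hyperfilter ℕ : Ultrafilter ℕ) : Filter ℕ) (𝓝 c) :=
    fun z x => ult_lim (hyperfilter ℕ) (hbd z x)
  choose v hv using hex
  have hlim := fun z => tq_lim1 F hR hq (hyperfilter ℕ) (htq z) (fun x => (hv z x).2)
  have h5 : ∀ z z', Tendsto (fun n : ℕ => dist (u (x0 + ((1 / ((n : ℝ) + 1) : ℝ) : ℂ) * z))
        (u (x0 + ((1 / ((n : ℝ) + 1) : ℝ) : ℂ) * z')) * ((n : ℝ) + 1)) (hyperfilter ℕ : Filter ℕ)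
        (𝓝 (dT F (u x0).1 (v z) (v z'))) := by
    intro z z'
    obtain ⟨-, -, h6⟩ := tq_lim F hR hq (hyperfilter ℕ) (htq z) (htq z') (fun x => (hv z x).2)
      (fun x => (hv z' x).2)
    refine h6.congr' ?_
    filter_upwards [Uc_le (Uc_ev (L := L) hR0 hr.1 z), Uc_le (Uc_ev (L := L) hR0 hr.1 z')] with n hn hn'
    rw [dq_dT F hr hL (Uc_l n) hn.1 hn.2 hn'.1 hn'.2, div_div_eq_mul_div, div_one]
  refine ⟨v, fun z => (hlim z).1, ?_, ?_, fun z => (hlim z).2, h5⟩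
  · funext x
    refine tendsto_nhds_unique (hv 0 x).2 ?_
    have e : (fun n : ℕ => dq F u x0 (1 / ((n : ℝ) + 1)) 0 x) = fun _ => 0 := by
      funext n
      unfold dq
      rw [mul_zero, add_zero, sub_self, zero_div]
    rw [e]
    exact tendsto_const_nhds
  · intro z z'
    refine le_of_tendsto (h5 z z') ?_
    filter_upwards [Uc_le (Uc_ev (L := L) hR0 hr.1 z), Uc_le (Uc_ev (L := L) hR0 hr.1 z')] with n hn hn'
    have hl := Uc_l n
    have h6 := hL _ (Uc_mem (x0 := x0) hl hn.1) _ (Uc_mem (x0 := x0) hl hn'.1)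
    have e : dist (x0 + ((1 / ((n : ℝ) + 1) : ℝ) : ℂ) * z) (x0 + ((1 / ((n : ℝ) + 1) : ℝ) : ℂ) * z') =
        1 / ((n : ℝ) + 1) * dist z z' := by
      rw [dist_eq_norm, add_sub_add_left_eq_sub, ← mul_sub, norm_mul, Complex.norm_real,
        Real.norm_of_nonneg hl.le, ← dist_eq_norm]
    rw [e] at h6
    have hn1 : (0 : ℝ) < (n : ℝ) + 1 := by positivity
    refine (mul_le_mul_of_nonneg_right h6 hn1.le).trans (le_of_eq ?_)
    field_simp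

theorem vdat_app {u : ℂ → Nm F V} {x0 : ℂ} {R0 L : ℝ} (hR0 : 0 < R0) (hL0 : 0 ≤ L)
    (hL : ∀ x ∈ closedBall x0 R0, ∀ y ∈ closedBall x0 R0, dist (u x) (u y) ≤ L * dist x y)
    {v : ℂ → V → ℝ} (h1 : ∀ z, TQ F (u x0).1 (v z))
    (h2 : ∀ z, Tendsto (fun n : ℕ => dT F (u x0).1 (dq F u x0 (1 / ((n : ℝ) + 1)) z) (v z))
        (hyperfilter ℕ : Filter ℕ) (𝓝 0)) (S : Finset ℂ) {ep : ℝ} (hep : 0 < ep) {rho : ℝ} (hrho : 0 < rho) :
    ∃ l : ℝ, 0 < l ∧ l < rho ∧ ∀ z ∈ S, ∀ x : V,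
      |(u (x0 + (l : ℂ) * z)).1 x - ((u x0).1 x + l * v z x)| ≤ ep * l := by
  have hq : SN F (u x0).1 := (u x0).2
  obtain ⟨r, hr⟩ := rad_ex F hq
  have hev : ∀ᶠ n : ℕ in (hyperfilter ℕ : Filter ℕ), ∀ z ∈ S,
      dT F (u x0).1 (dq F u x0 (1 / ((n : ℝ) + 1)) z) (v z) < ep ∧
        TQ F (u x0).1 (dq F u x0 (1 / ((n : ℝ) + 1)) z) := by
    rw [eventually_all_finset]
    intro z _
    filter_upwards [(h2 z).eventually_lt_const hep, Uc_le (Uc_ev (L := L) hR0 hr.1 z)] with n a1 hn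
    exact ⟨a1, dq_tq F hr hL (Uc_l n) hn.1 hn.2⟩
  have hev2 : ∀ᶠ n : ℕ in (hyperfilter ℕ : Filter ℕ), 1 / ((n : ℝ) + 1) < rho :=
    Uc_le (tendsto_one_div_add_atTop_nhds_zero_nat.eventually_lt_const hrho)
  obtain ⟨n, h3, h4⟩ := (hev.and hev2).exists
  have hl := Uc_l n
  refine ⟨1 / ((n : ℝ) + 1), hl, h4, fun z hz x => ?_⟩
  obtain ⟨a1, a2⟩ := h3 z hz
  have a3 := abs_le_dT F hq a2 (h1 z) x
  have e : (u (x0 + ((1 / ((n : ℝ) + 1) : ℝ) : ℂ) * z)).1 x -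
      ((u x0).1 x + 1 / ((n : ℝ) + 1) * v z x) =
      -(1 / ((n : ℝ) + 1) * (v z x - dq F u x0 (1 / ((n : ℝ) + 1)) z x)) := by
    unfold dq
    field_simp
    ring
  rw [e, abs_neg, abs_mul, abs_of_pos hl, mul_comm ep]
  exact mul_le_mul_of_nonneg_left (a3.trans a1.le) hl.le

end

end H1NA
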